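import Pool.Agent.Helper36.ST.Defs
import Pool.Agent.Helper36.NC.C
import Pool.Agent.Helper52.NO.Ext

/-!
# Idempotents supported on the stabiliser
-/

set_option autoImplicit false
open scoped BigOperators MonoidAlgebra
open Classical

namespace Pool.Agent.Helper28.ST

open Pool.Agent.Helper36.ST Pool.Agent.Helper36.NB Pool.Agent.Helper44.S3 Pool.Agent.Helper36.NC

/-- units from the simple quotient -/
theorem unit_of_rho {k : Type} [Field k] {H : Type} [Group H] {b : MonoidAlgebra k H}
    (hb : b * b = b) (hbc : ∀ a, a * b = b * a) (Sb : SimpleQuot b) (a : MonoidAlgebra k H)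
    (hba : b * a = a) (v w : MonoidAlgebra k H) (hv : Sb.ρ v * Sb.ρ a = 1)
    (hw : Sb.ρ a * Sb.ρ w = 1) :
    ∃ a' : MonoidAlgebra k H, b * a' = a' ∧ a * a' = b ∧ a' * a = b := by
  have hab : a * b = a := by rw [hbc, hba]
  have h1 : IsNilpotent ((1 - v * a) * b) := by
    apply Sb.nil
    rw [map_sub, map_one, map_mul, hv, sub_self]
  have h2 : IsNilpotent ((1 - a * w) * b) := by
    apply Sb.nil
    rw [map_sub, map_one, map_mul, hw, sub_self]
  obtain ⟨z, hz⟩ := h1.isUnit_one_sub
  obtain ⟨y, hy⟩ := h2.isUnit_one_sub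
  have e1 : (z : MonoidAlgebra k H) * b = v * a := by
    rw [hz, sub_mul, one_mul, mul_assoc, hb, sub_mul, one_mul, mul_assoc, hab]
    abel
  have e2 : b * (y : MonoidAlgebra k H) = a * (w * b) := by
    rw [hy, mul_sub, mul_one, ← mul_assoc, hbc (1 - a * w) |>.symm, mul_assoc, hb, sub_mul, one_mul,
      mul_assoc]
    abel
  -- left and right inverses
  have f1 : (((z⁻¹ : (MonoidAlgebra k H)ˣ) : MonoidAlgebra k H) * v * b) * a = b := by
    rw [mul_assoc, hba, mul_assoc, ← e1, ← mul_assoc, Units.inv_mul, one_mul]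
  have f2 : a * (w * b * ((y⁻¹ : (MonoidAlgebra k H)ˣ) : MonoidAlgebra k H)) = b := by
    rw [← mul_assoc, ← e2, mul_assoc, Units.mul_inv, mul_one]
  obtain ⟨p, hp⟩ : ∃ p, p = ((z⁻¹ : (MonoidAlgebra k H)ˣ) : MonoidAlgebra k H) * v * b := ⟨_, rfl⟩
  obtain ⟨s, hs⟩ : ∃ s, s = w * b * ((y⁻¹ : (MonoidAlgebra k H)ˣ) : MonoidAlgebra k H) := ⟨_, rfl⟩
  rw [← hp] at f1
  rw [← hs] at f2
  have hpb : p * b = p := by rw [hp, mul_assoc, hb]
  have hbs : b * s = s := by
    rw [hs, ← mul_assoc, ← hbc, mul_assoc w b b, hb]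
  have hps : p = s := by
    calc p = p * b := hpb.symm
      _ = p * (a * s) := by rw [f2]
      _ = b * s := by rw [← mul_assoc, f1]
      _ = s := hbs
  exact ⟨p, by rw [← hbc, hpb], by rw [hps, f2], f1⟩

theorem uc_or {k : Type} [Field k] {G : Type} [Group G] [Finite G] {H : Subgroup G}
    (hH : H.Normal) (b : MonoidAlgebra k H) (hb : b * b = b) (hbc : ∀ a, a * b = b * a)
    (Sb : SimpleQuot b) (x : G) (hx : cj x (incl k H b) = incl k H b) (c : MonoidAlgebra k G)
    (hc : ∀ g, g * x⁻¹ ∉ H → c.coeff g = 0) (hFc : incl k H b * c = c)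
    (hcom : ∀ h ∈ H, el k h * c = c * el k h) :
    (∃ u', UC H (incl k H b) x c u') ∨ Sb.ρ (res H (c * el k x⁻¹)) = 0 := by
  obtain ⟨a, ha⟩ : ∃ a, a = res H (c * el k x⁻¹) := ⟨_, rfl⟩
  rw [← ha]
  have hia : incl k H a = c * el k x⁻¹ := by
    rw [ha]
    apply incl_res
    intro g hg
    rw [mul_el_coeff, inv_inv]
    apply hc
    rwa [mul_inv_cancel_right]
  have hc2 : c = incl k H a * el k x := by
    rw [hia, mul_assoc, el_inv_mul_el, mul_one]
  have hba : b * a = a := by
    apply incl_injective H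
    rw [map_mul, hia, ← mul_assoc, hFc]
  have hcomy : ∀ y : MonoidAlgebra k H, incl k H y * c = c * incl k H y := fun y =>
    comm_of_supp H (fun g hg => incl_supp H y hg) hcom
  -- the twisted commutation
  have hσ : ∀ y : MonoidAlgebra k H, ∃ y' : MonoidAlgebra k H,
      cj x (incl k H y') = incl k H y := by
    intro y
    obtain ⟨y', hy'⟩ := cj_incl hH x⁻¹ y
    exact ⟨y', by rw [← hy', cj_cj, mul_inv_cancel, cj_one]⟩
  have htw : ∀ y y' : MonoidAlgebra k H, cj x (incl k H y') = incl k H y → y' * a = a * y := by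
    intro y y' hyy
    apply incl_injective H
    have h1 := hcomy y'
    have h2 : el k x * incl k H y' = incl k H y * el k x := by
      rw [← hyy]
      unfold cj
      rw [mul_assoc, el_inv_mul_el, mul_one]
    have h3 : incl k H y' * incl k H a * el k x = incl k H a * incl k H y * el k x := by
      calc incl k H y' * incl k H a * el k x = incl k H y' * c := by rw [hc2]; rw [mul_assoc]
        _ = c * incl k H y' := h1
        _ = incl k H a * (el k x * incl k H y') := by rw [hc2]; rw [mul_assoc]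
        _ = incl k H a * incl k H y * el k x := by rw [h2, ← mul_assoc]
    have h4 := congrArg (fun t => t * el k x⁻¹) h3
    simp only [mul_assoc, el_mul_el_inv, mul_one] at h4
    rw [map_mul, map_mul]
    exact h4
  by_cases h0 : Sb.ρ a = 0
  · exact Or.inr h0
  left
  -- `ρ(a)` is injective
  have hker : ∀ v : Fin Sb.n → k, Matrix.mulVec (Sb.ρ a) v = 0 → v = 0 := by
    intro v hv
    by_contra hv0
    apply h0
    obtain ⟨i, hi⟩ : ∃ i, v i ≠ 0 := by
      by_contra hcon
      push Not at hcon
      exact hv0 (funext hcon)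
    have hall : ∀ w : Fin Sb.n → k, Matrix.mulVec (Sb.ρ a) w = 0 := by
      intro w
      obtain ⟨y, hy⟩ := Sb.surj (Matrix.of fun j l => if l = i then w j * (v i)⁻¹ else 0)
      have h5 : Matrix.mulVec (Sb.ρ y) v = w := by
        rw [hy]
        funext j
        simp [Matrix.mulVec, dotProduct, hi]
      obtain ⟨y', hy'⟩ := hσ y
      rw [← h5, Matrix.mulVec_mulVec, ← map_mul, ← htw y y' hy', map_mul, ← Matrix.mulVec_mulVec,
        hv, Matrix.mulVec_zero]
    ext i j
    have h6 := congrFun (hall (Pi.single j 1)) i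
    rw [Matrix.mulVec_single_one] at h6
    simpa using h6
  have hunit : IsUnit (Sb.ρ a) := by
    rw [← Matrix.mulVec_injective_iff_isUnit]
    intro v w hvw
    have h7 : Matrix.mulVec (Sb.ρ a) (v - w) = 0 := by
      rw [Matrix.mulVec_sub]
      exact sub_eq_zero.2 hvw
    exact sub_eq_zero.1 (hker _ h7)
  obtain ⟨U, hU⟩ := hunit
  obtain ⟨v, hv⟩ := Sb.surj ((U⁻¹ : (Matrix (Fin Sb.n) (Fin Sb.n) k)ˣ) :
    Matrix (Fin Sb.n) (Fin Sb.n) k)
  obtain ⟨a', h1, h2, h3⟩ := unit_of_rho hb hbc Sb a hba v v
    (by rw [hv, ← hU, Units.inv_mul]) (by rw [hv, ← hU, Units.mul_inv])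
  obtain ⟨F, hF⟩ : ∃ F, F = incl k H b := ⟨_, rfl⟩
  have hx' : cj x⁻¹ F = F := by
    rw [hF]
    calc cj x⁻¹ (incl k H b) = cj x⁻¹ (cj x (incl k H b)) := by rw [hx]
      _ = incl k H b := by rw [cj_cj, inv_mul_cancel, cj_one]
  have hxF : el k x⁻¹ * F = F * el k x⁻¹ := (cj_eq_iff x⁻¹ F).1 hx'
  have e1 : c * (el k x⁻¹ * incl k H a') = F := by
    rw [hF, hc2, mul_assoc, ← mul_assoc (el k x), el_mul_el_inv, one_mul, ← map_mul, h2]
  have e2 : el k x⁻¹ * incl k H a' * c = F := by
    rw [hc2, mul_assoc, ← mul_assoc (incl k H a'), ← map_mul, h3, ← hF, ← mul_assoc, hxF, mul_assoc,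
      el_inv_mul_el, mul_one]
  have e3 : F * (el k x⁻¹ * incl k H a') = el k x⁻¹ * incl k H a' := by
    rw [← mul_assoc, ← hxF, mul_assoc, hF, ← map_mul, h1]
  have e4 : el k x⁻¹ * incl k H a' * F = el k x⁻¹ * incl k H a' := by
    rw [← e1, ← mul_assoc, e2, e3]
  have hFh : ∀ h ∈ H, el k h * F = F * el k h := by
    intro h hh
    have := hbc (el k ⟨h, hh⟩)
    have h8 := congrArg (incl k H) this
    rw [map_mul, map_mul, incl_el] at h8
    rw [hF]
    exact h8
  refine ⟨el k x⁻¹ * incl k H a', ?_⟩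
  rw [← hF] at hFc ⊢
  refine ⟨hc, ?_, hFc, e3, e1, e2, hcom, ?_⟩
  · intro g hg
    rw [el_mul_coeff, inv_inv]
    apply incl_supp
    intro h9
    apply hg
    have h10 := hH.conj_mem _ h9 x⁻¹
    rw [inv_inv] at h10
    have h11 : x⁻¹ * (x * g) * x = g * x := by group
    rwa [h11] at h10
  · intro h hh
    obtain ⟨u', hu'⟩ : ∃ u', u' = el k x⁻¹ * incl k H a' := ⟨_, rfl⟩
    rw [← hu'] at e1 e2 e3 e4 ⊢
    calc el k h * u' = el k h * (F * u') := by rw [e3]
      _ = F * el k h * u' := by rw [← mul_assoc, hFh h hh]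
      _ = u' * (c * el k h) * u' := by rw [← e2]; noncomm_ring
      _ = u' * (el k h * c) * u' := by rw [hcom h hh]
      _ = u' * el k h * (c * u') := by noncomm_ring
      _ = u' * (el k h * F) := by rw [e1, mul_assoc]
      _ = u' * F * el k h := by rw [hFh h hh, mul_assoc]
      _ = u' * el k h := by rw [e4]

/-- the part of `f` on the coset `H x` -/
noncomputable def part {k : Type} [Field k] {G : Type} [Group G] (H : Subgroup G) (x : G)
    (f : MonoidAlgebra k G) : MonoidAlgebra k G :=
  incl k H (res H (f * el k x⁻¹)) * el k x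

theorem part_coeff {k : Type} [Field k] {G : Type} [Group G] (H : Subgroup G) (x : G)
    (f : MonoidAlgebra k G) (g : G) :
    (part H x f).coeff g = if g * x⁻¹ ∈ H then f.coeff g else 0 := by
  unfold part
  rw [mul_el_coeff]
  split_ifs with h
  · have h1 := incl_coeff H (res H (f * el k x⁻¹)) ⟨g * x⁻¹, h⟩
    change (incl k H (res H (f * el k x⁻¹))).coeff (g * x⁻¹) = _ at h1
    rw [h1, res_coeff, mul_el_coeff, inv_inv]
    change f.coeff (g * x⁻¹ * x) = f.coeff g
    rw [inv_mul_cancel_right]
  · exact incl_supp H _ h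

theorem all_triv {k : Type} [Field k] [IsAlgClosed k] {G : Type} [Group G] [Finite G]
    {H : Subgroup G} (hH : H.Normal) (b : MonoidAlgebra k H) (hb : b * b = b)
    (hbc : ∀ a, a * b = b * a) (Sb : SimpleQuot b) (T : Subgroup G) (hHT : H ≤ T)
    (hT : ∀ g ∈ T, cj g (incl k H b) = incl k H b) (f : MonoidAlgebra k G) (hff : f * f = f)
    (hfF : f * incl k H b = f) (hfs : ∀ g, g ∉ T → f.coeff g = 0)
    (hfc : ∀ h ∈ H, el k h * f = f * el k h)
    (hX : ∀ x ∈ T, x ∉ H → ∀ u u', ¬ UC H (incl k H b) x u u') :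
    f = 0 ∨ f = incl k H b := by
  obtain ⟨m, d, P, hd, hPs, hPn⟩ := Pool.Agent.Helper52.NO.exists_wedd k G
  have key : ∀ (i : Fin m) (y : MonoidAlgebra k H), Sb.ρ y = 0 →
      P (incl k H (y * b)) i = 0 := by
    intro i y hy
    obtain ⟨e, he⟩ := hPs (Pi.single i 1)
    let S : SimpleQuot e :=
      { n := d i
        ρ := (Pi.evalAlgHom k _ i).comp P
        pos := hd i
        surj := by
          intro X
          obtain ⟨a, ha⟩ := hPs (Pi.single i X)
          refine ⟨a, ?_⟩
          change P a i = X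
          rw [ha, Pi.single_eq_same]
        one := by
          change P e i = 1
          rw [he, Pi.single_eq_same]
        nil := by
          intro a ha
          have ha' : P a i = 0 := ha
          apply hPn
          rw [map_mul, he]
          funext j
          rw [Pi.mul_apply]
          by_cases hj : j = i
          · subst hj
            rw [ha', zero_mul]
            rfl
          · rw [Pi.single_eq_of_ne hj, mul_zero]
            rfl }
    exact kill S hH Sb y hy
  obtain ⟨F, hF⟩ : ∃ F, F = incl k H b := ⟨_, rfl⟩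
  have hFf : F * f = f := by
    rw [hF, comm_of_supp H (fun g hg => incl_supp H b hg) hfc, hfF]
  have hFF : F * F = F := by rw [hF, ← map_mul, hb]
  have hQ : Fintype (G ⧸ H) := Fintype.ofFinite _
  have hmem : ∀ (q : G ⧸ H) (g : G), g * (q.out)⁻¹ ∈ H ↔ (g : G ⧸ H) = q := by
    intro q g
    rw [← div_eq_mul_inv, ← QuotientGroup.eq_iff_div_mem, QuotientGroup.out_eq']
  have hsum : f = ∑ q : G ⧸ H, part H q.out f := by
    ext g
    rw [MonoidAlgebra.coeff_sum, Finsupp.finsetSum_apply, Finset.sum_eq_single (g : G ⧸ H)]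
    · rw [part_coeff, if_pos ((hmem _ _).2 rfl)]
    · intro q _ hq
      rw [part_coeff, if_neg (fun h => hq ((hmem _ _).1 h).symm)]
    · exact fun h => absurd (Finset.mem_univ _) h
  -- the parts commute with `H`
  have hpc : ∀ x : G, ∀ h ∈ H, el k h * part H x f = part H x f * el k h := by
    intro x h hh
    ext g
    rw [el_mul_coeff, mul_el_coeff, part_coeff, part_coeff]
    have h1 : (el k h * f).coeff g = (f * el k h).coeff g := by rw [hfc h hh]
    rw [el_mul_coeff, mul_el_coeff] at h1
    have h2 : h⁻¹ * g * x⁻¹ ∈ H ↔ g * h⁻¹ * x⁻¹ ∈ H := by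
      have e1 : h⁻¹ * g * x⁻¹ = h⁻¹ * (g * x⁻¹) := by group
      have e2 : g * h⁻¹ * x⁻¹ = g * x⁻¹ * (x * h⁻¹ * x⁻¹) := by group
      rw [e1, e2, Subgroup.mul_mem_cancel_left H (H.inv_mem hh),
        Subgroup.mul_mem_cancel_right H (hH.conj_mem _ (H.inv_mem hh) x)]
    by_cases h3 : h⁻¹ * g * x⁻¹ ∈ H
    · rw [if_pos h3, if_pos (h2.1 h3), h1]
    · rw [if_neg h3, if_neg (fun h4 => h3 (h2.2 h4))]
  have hpF : ∀ x : G, F * part H x f = part H x f := by
    intro x
    have hxx : F * (f * el k x⁻¹) = f * el k x⁻¹ := by rw [← mul_assoc, hFf]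
    unfold part
    rw [← mul_assoc, hF, ← map_mul]
    congr 2
    -- restriction of the product
    ext h
    rw [res_coeff]
    conv_rhs => rw [← hxx, hF]
    have hG : Fintype G := Fintype.ofFinite G
    have hHf : Fintype H := Fintype.ofFinite H
    rw [coeff_mul_all, coeff_mul_all]
    rw [← Finset.sum_filter_add_sum_filter_not Finset.univ (fun y : G => y ∈ H)]
    rw [Finset.sum_eq_zero (s := Finset.univ.filter fun y : G => ¬ y ∈ H), add_zero]
    · refine Finset.sum_bij (fun (y : H) _ => (y : G)) ?_ ?_ ?_ ?_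
      · intro y _
        simp
      · intro y _ z _ hyz
        exact Subtype.ext hyz
      · intro y hy
        simp only [Finset.mem_filter, Finset.mem_univ, true_and] at hy
        exact ⟨⟨y, hy⟩, Finset.mem_univ _, rfl⟩
      · intro y _
        rw [incl_coeff, res_coeff]
        rfl
    · intro y hy
      simp only [Finset.mem_filter, Finset.mem_univ, true_and] at hy
      rw [incl_supp H b hy, zero_mul]
  -- the parts outside `H` are killed
  have hout : ∀ (i : Fin m) (x : G), x ∉ H → P (part H x f) i = 0 := by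
    intro i x hx
    by_cases hxT : x ∈ T
    · have hor := uc_or hH b hb hbc Sb x (hT x hxT) (part H x f)
        (fun g hg => by rw [part_coeff, if_neg hg]) (by rw [← hF]; exact hpF x) (hpc x)
      rcases hor with ⟨u', hu'⟩ | h0
      · exact absurd hu' (hX x hxT hx _ _)
      · obtain ⟨a, ha⟩ : ∃ a, a = res H (part H x f * el k x⁻¹) := ⟨_, rfl⟩
        rw [← ha] at h0
        have hia : incl k H a = part H x f * el k x⁻¹ := by
          rw [ha]
          apply incl_res
          intro g hg
          rw [mul_el_coeff, inv_inv, part_coeff, if_neg]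
          rwa [mul_inv_cancel_right]
        have hc2 : part H x f = incl k H a * el k x := by
          rw [hia, mul_assoc, el_inv_mul_el, mul_one]
        have hba : b * a = a := by
          apply incl_injective H
          rw [map_mul, hia, ← mul_assoc, ← hF, hpF]
        have hab : a * b = a := by rw [hbc, hba]
        rw [hc2, map_mul, Pi.mul_apply]
        have h1 := key i a h0
        rw [hab] at h1
        rw [h1, zero_mul]
    · have h0 : part H x f = 0 := by
        ext g
        rw [part_coeff]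
        split_ifs with h
        · rw [hfs g]
          · rfl
          · intro hg
            apply hxT
            have := T.mul_mem (T.inv_mem (hHT h)) hg
            have e : (g * x⁻¹)⁻¹ * g = x := by group
            rwa [e] at this
        · rfl
      rw [h0, map_zero]
      rfl
  -- the part on `H`
  obtain ⟨a1, ha1⟩ : ∃ a1, a1 = res H f := ⟨_, rfl⟩
  have hin : ∀ x ∈ H, part H x f = incl k H a1 := by
    intro x hx
    ext g
    rw [part_coeff]
    by_cases hg : g ∈ H
    · rw [if_pos (H.mul_mem hg (H.inv_mem hx))]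
      have := incl_coeff H a1 ⟨g, hg⟩
      change (incl k H a1).coeff g = _ at this
      rw [this, ha1, res_coeff]
    · rw [if_neg (fun h => hg ((Subgroup.mul_mem_cancel_right H (H.inv_mem hx)).1 h)),
        incl_supp H a1 hg]
  have hPf : ∀ i, P f i = P (incl k H a1) i := by
    intro i
    conv_lhs => rw [hsum]
    rw [map_sum, Finset.sum_apply, Finset.sum_eq_single (1 : G ⧸ H)]
    · rw [hin]
      rw [← QuotientGroup.eq_one_iff, QuotientGroup.out_eq']
    · intro q _ hq
      apply hout
      intro h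
      apply hq
      rw [← QuotientGroup.eq_one_iff, QuotientGroup.out_eq'] at h
      exact h
    · exact fun h => absurd (Finset.mem_univ _) h
  have ha1c : ∀ y, y * a1 = a1 * y := by
    apply central_of_cj
    intro h
    rw [cj_eq_iff]
    apply incl_injective H
    rw [map_mul, map_mul, incl_el, ← hin 1 H.one_mem]
    exact hpc 1 h h.2
  have ha1b : a1 * b = a1 := by
    rw [← ha1c b]
    apply incl_injective H
    rw [map_mul, ← hin 1 H.one_mem, ← hF, hpF]
  -- the scalar
  obtain ⟨r, hr⟩ : ∃ r : k, Sb.ρ a1 = r • 1 := by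
    have hcen : Sb.ρ a1 ∈ Set.center (Matrix (Fin Sb.n) (Fin Sb.n) k) := by
      rw [Semigroup.mem_center_iff]
      intro g
      obtain ⟨y, hy⟩ := Sb.surj g
      rw [← hy, ← map_mul, ← map_mul, ha1c]
    rw [Matrix.center_eq_range] at hcen
    obtain ⟨c, hc⟩ := hcen
    refine ⟨c, ?_⟩
    rw [← hc]
    ext i j
    simp [Matrix.scalar_apply, Matrix.diagonal_apply, Matrix.one_apply]
  have hPr : ∀ i, P f i = r • P F i := by
    intro i
    have h1 := key i (a1 - r • b) (by rw [map_sub, map_smul, Sb.one, hr, sub_self])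
    rw [sub_mul, smul_mul_assoc, hb, ha1b, map_sub, incl_smul, map_sub, Pi.sub_apply, map_smul,
      Pi.smul_apply, sub_eq_zero] at h1
    rw [hPf, h1, hF]
  by_cases hall : ∀ i, P F i = 0
  · left
    apply Pool.Agent.Helper52.NO.idem_nil hff
    apply hPn
    funext i
    rw [hPr, hall, smul_zero]
    rfl
  push Not at hall
  obtain ⟨i, hi⟩ := hall
  have hrr : r * r = r := by
    have h1 : P f i * P f i = P f i := by rw [← Pi.mul_apply, ← map_mul, hff]
    have h2 : P F i * P F i = P F i := by rw [← Pi.mul_apply, ← map_mul, hFF]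
    rw [hPr, smul_mul_smul_comm, h2] at h1
    by_contra hne
    have h3 : (r * r - r) • P F i = 0 := by rw [sub_smul, h1, sub_self]
    rcases smul_eq_zero.1 h3 with h4 | h4
    · exact hne (sub_eq_zero.1 h4)
    · exact hi h4
  have hr01 : r = 0 ∨ r = 1 := by
    have : r * (r - 1) = 0 := by rw [mul_sub, hrr, mul_one, sub_self]
    rcases mul_eq_zero.mp this with h0 | h1
    · exact Or.inl h0
    · exact Or.inr (sub_eq_zero.mp h1)
  rcases hr01 with h0 | h1
  · left
    apply Pool.Agent.Helper52.NO.idem_nil hff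
    apply hPn
    funext i
    rw [hPr, h0, zero_smul]
    rfl
  · right
    rw [← hF]
    have h5 : (F - f) * (F - f) = F - f := by
      have hfF' : f * F = f := by rw [hF, hfF]
      rw [sub_mul, mul_sub, mul_sub, hFF, hFf, hfF', hff]
      abel
    have h6 : F - f = 0 := by
      apply Pool.Agent.Helper52.NO.idem_nil h5
      apply hPn
      funext i
      rw [map_sub, Pi.sub_apply, hPr, h1, one_smul, sub_self]
      rfl
    exact (sub_eq_zero.1 h6).symm

end Pool.Agent.Helper28.ST
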