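import Pool.Agent.Helper36.ST.Defs
import Pool.Agent.Helper36.NC.C

/-!
# The elements acting as inner automorphisms
-/

set_option autoImplicit false
set_option linter.unusedSectionVars false
open scoped BigOperators MonoidAlgebra
open Classical

namespace Pool.Agent.Helper28.ST

open Pool.Agent.Helper36.ST Pool.Agent.Helper36.NB Pool.Agent.Helper44.S3 Pool.Agent.Helper36.NC

section UCs

variable {k : Type} [Field k] {G : Type} [Group G] [Finite G] {H : Subgroup G} (hH : H.Normal)
  {F : MonoidAlgebra k G}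

theorem UC.uF {x : G} {u u' : MonoidAlgebra k G} (h : UC H F x u u') : u * F = u := by
  rw [← h.mul', ← mul_assoc, h.mul, h.left]

theorem UC.uF' {x : G} {u u' : MonoidAlgebra k G} (h : UC H F x u u') : u' * F = u' := by
  rw [← h.mul, ← mul_assoc, h.mul', h.left']

/-- inverses -/
theorem UC.inv {x : G} {u u' : MonoidAlgebra k G} (h : UC H F x u u') : UC H F x⁻¹ u' u where
  supp := fun g hg => h.supp' g (by rwa [inv_inv] at hg)
  supp' := h.supp
  left := h.left'
  left' := h.left
  mul := h.mul'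
  mul' := h.mul
  com := h.com'
  com' := h.com

include hH in
/-- products -/
theorem UC.prod {x y : G} {u u' v v' : MonoidAlgebra k G} (h : UC H F x u u')
    (h1 : UC H F y v v') : UC H F (x * y) (u * v) (v' * u') where
  supp := by
    intro g hg
    have hG : Fintype G := Fintype.ofFinite G
    rw [coeff_mul_all]
    refine Finset.sum_eq_zero fun z _ => ?_
    by_cases h2 : z * x⁻¹ ∈ H
    · rw [h1.supp, mul_zero]
      intro h3
      apply hg
      have h4 := H.mul_mem h2 (hH.conj_mem _ h3 x)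
      have e : z * x⁻¹ * (x * (z⁻¹ * g * y⁻¹) * x⁻¹) = g * (x * y)⁻¹ := by group
      rwa [e] at h4
    · rw [h.supp z h2, zero_mul]
  supp' := by
    intro g hg
    have hG : Fintype G := Fintype.ofFinite G
    rw [coeff_mul_all]
    refine Finset.sum_eq_zero fun z _ => ?_
    by_cases h2 : z * y ∈ H
    · rw [h.supp', mul_zero]
      intro h3
      apply hg
      have h4 := H.mul_mem h2 (hH.conj_mem _ h3 y⁻¹)
      have e : z * y * (y⁻¹ * (z⁻¹ * g * x) * y⁻¹⁻¹) = g * (x * y) := by group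
      rwa [e] at h4
    · rw [h1.supp' z h2, zero_mul]
  left := by rw [← mul_assoc, h.left]
  left' := by rw [← mul_assoc, h1.left']
  mul := by
    calc u * v * (v' * u') = u * (v * v') * u' := by noncomm_ring
      _ = F := by rw [h1.mul, UC.uF h, h.mul]
  mul' := by
    calc v' * u' * (u * v) = v' * (u' * u) * v := by noncomm_ring
      _ = F := by rw [h.mul', UC.uF' h1, h1.mul']
  com := fun z hz => by rw [← mul_assoc, h.com z hz, mul_assoc, h1.com z hz, mul_assoc]
  com' := fun z hz => by rw [← mul_assoc, h1.com' z hz, mul_assoc, h.com' z hz, mul_assoc]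

include hH in
/-- conjugation -/
theorem UC.conj {x : G} {u u' : MonoidAlgebra k G} (h : UC H F x u u') (g : G) :
    UC H (cj g F) (g * x * g⁻¹) (cj g u) (cj g u') where
  supp := by
    intro y hy
    rw [cj_coeff]
    apply h.supp
    intro h3
    apply hy
    have h4 := hH.conj_mem _ h3 g
    have e : g * (g⁻¹ * y * g * x⁻¹) * g⁻¹ = y * (g * x * g⁻¹)⁻¹ := by group
    rwa [e] at h4
  supp' := by
    intro y hy
    rw [cj_coeff]
    apply h.supp'
    intro h3
    apply hy
    have h4 := hH.conj_mem _ h3 g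
    have e : g * (g⁻¹ * y * g * x) * g⁻¹ = y * (g * x * g⁻¹) := by group
    rwa [e] at h4
  left := by rw [← cj_mul, h.left]
  left' := by rw [← cj_mul, h.left']
  mul := by rw [← cj_mul, h.mul]
  mul' := by rw [← cj_mul, h.mul']
  com := by
    intro z hz
    have h1 := h.com (g⁻¹ * z * g) (by
      have := hH.conj_mem z hz g⁻¹
      rwa [inv_inv] at this)
    have h2 := congrArg (cj g) h1
    rw [cj_mul, cj_mul, cj_el] at h2
    have e : g * (g⁻¹ * z * g) * g⁻¹ = z := by group
    rwa [e] at h2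
  com' := by
    intro z hz
    have h1 := h.com' (g⁻¹ * z * g) (by
      have := hH.conj_mem z hz g⁻¹
      rwa [inv_inv] at this)
    have h2 := congrArg (cj g) h1
    rw [cj_mul, cj_mul, cj_el] at h2
    have e : g * (g⁻¹ * z * g) * g⁻¹ = z := by group
    rwa [e] at h2

include hH in
/-- the inverse star -/
theorem UC.star {x : G} {u u' : MonoidAlgebra k G} (h : UC H F x u u') :
    UC H (inv' F) x (inv' u') (inv' u) where
  supp := by
    intro y hy
    rw [inv'_coeff]
    apply h.supp'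
    intro h3
    apply hy
    have h4 := hH.conj_mem _ (H.inv_mem h3) x
    have e : x * (y⁻¹ * x)⁻¹ * x⁻¹ = y * x⁻¹ := by group
    rwa [e] at h4
  supp' := by
    intro y hy
    rw [inv'_coeff]
    apply h.supp
    intro h3
    apply hy
    have h4 := hH.conj_mem _ (H.inv_mem h3) x⁻¹
    have e : x⁻¹ * (y⁻¹ * x⁻¹)⁻¹ * x⁻¹⁻¹ = y * x := by group
    rwa [e] at h4
  left := by rw [← inv'_mul, UC.uF' h]
  left' := by rw [← inv'_mul, UC.uF h]
  mul := by rw [← inv'_mul, h.mul]
  mul' := by rw [← inv'_mul, h.mul']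
  com := by
    intro z hz
    have h1 := congrArg inv' (h.com' z⁻¹ (H.inv_mem hz))
    rw [inv'_mul, inv'_mul, inv'_el, inv_inv] at h1
    exact h1.symm
  com' := by
    intro z hz
    have h1 := congrArg inv' (h.com z⁻¹ (H.inv_mem hz))
    rw [inv'_mul, inv'_mul, inv'_el, inv_inv] at h1
    exact h1.symm

end UCs

theorem exists_X {k : Type} [Field k] {G : Type} [Group G] [Finite G] {H : Subgroup G}
    (hH : H.Normal) (b : MonoidAlgebra k H) (hb : b * b = b) (hbc : ∀ a, a * b = b * a)
    (T : Subgroup G) (hTn : T.Normal) (hHT : H ≤ T)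
    (hT1 : ∀ g ∈ T, cj g (incl k H b) = incl k H b)
    (hT2 : ∀ g, g ∉ T → cj g (incl k H b) = inv' (incl k H b)) :
    ∃ X : Subgroup G, X.Normal ∧ H ≤ X ∧ X ≤ T ∧
      ∀ x, x ∈ X ↔ x ∈ T ∧ ∃ u u', UC H (incl k H b) x u u' := by
  obtain ⟨F, hF⟩ : ∃ F, F = incl k H b := ⟨_, rfl⟩
  rw [← hF] at hT1 hT2 ⊢
  have hFF : F * F = F := by rw [hF, ← map_mul, hb]
  have hFh : ∀ h ∈ H, el k h * F = F * el k h := by
    intro h hh
    have := hbc (el k ⟨h, hh⟩)
    have h8 := congrArg (incl k H) this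
    rw [map_mul, map_mul, incl_el] at h8
    rw [hF]
    exact h8
  have hFs : ∀ g, g ∉ H → F.coeff g = 0 := fun g hg => by
    rw [hF]
    exact incl_supp H b hg
  have hone : ∀ h ∈ H, UC H F h F F := fun h hh =>
    { supp := fun g hg => hFs g fun hg' => hg (H.mul_mem hg' (H.inv_mem hh))
      supp' := fun g hg => hFs g fun hg' => hg (H.mul_mem hg' hh)
      left := hFF
      left' := hFF
      mul := hFF
      mul' := hFF
      com := hFh
      com' := hFh }
  let X : Subgroup G :=
    { carrier := {x | x ∈ T ∧ ∃ u u', UC H F x u u'}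
      one_mem' := ⟨T.one_mem, F, F, hone 1 H.one_mem⟩
      mul_mem' := by
        rintro x y ⟨hx, u, u', hu⟩ ⟨hy, v, v', hv⟩
        exact ⟨T.mul_mem hx hy, _, _, UC.prod hH hu hv⟩
      inv_mem' := by
        rintro x ⟨hx, u, u', hu⟩
        exact ⟨T.inv_mem hx, _, _, UC.inv hu⟩ }
  have hX : ∀ x, x ∈ X ↔ x ∈ T ∧ ∃ u u', UC H F x u u' := fun x => Iff.rfl
  refine ⟨X, ⟨fun x hx g => ?_⟩, fun h hh => ⟨hHT hh, F, F, hone h hh⟩, fun x hx => hx.1, hX⟩
  rw [hX] at hx ⊢
  obtain ⟨hxT, u, u', hu⟩ := hx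
  refine ⟨hTn.conj_mem x hxT g, ?_⟩
  by_cases hg : g ∈ T
  · have h1 := UC.conj hH hu g
    rw [hT1 g hg] at h1
    exact ⟨_, _, h1⟩
  · have h1 := UC.conj hH (UC.star hH hu) g
    rw [← cj_inv', hT2 g hg, inv'_inv'] at h1
    exact ⟨_, _, h1⟩

end Pool.Agent.Helper28.ST
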