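import Pool.Agent.Helper28.ST.S0
import Pool.Agent.Helper44.ST.T1
import Pool.Agent.Helper36.NB.Asm1

/-!
# The product with the symmetric group of degree three
-/

set_option autoImplicit false
set_option linter.unusedSectionVars false
open scoped BigOperators MonoidAlgebra
open Classical

namespace Pool.Agent.Helper28.ST

open Pool.Agent.Helper36.ST Pool.Agent.Helper36.NB Pool.Agent.Helper44.S3 Pool.Agent.Helper36.NC
open Pool.Agent.Helper44.ST (tw_coeff tw_block tw_orth toK_tw tw_simple tw_one)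

theorem exists_omega (O : ValuationSubring ℂ) :
    ∃ w : Oˣ, (1 : O) + w + (w : O) ^ 2 = 0 := by
  have hζ : IsPrimitiveRoot (Complex.exp (2 * Real.pi * Complex.I / (3 : ℕ))) 3 :=
    Complex.isPrimitiveRoot_exp 3 (by norm_num)
  obtain ⟨ζ, hζe⟩ : ∃ ζ, ζ = Complex.exp (2 * Real.pi * Complex.I / (3 : ℕ)) := ⟨_, rfl⟩
  rw [← hζe] at hζ
  have h1 : IsIntegral ℤ ζ := hζ.isIntegral (by norm_num)
  have h2 : IsIntegral O ζ := h1.tower_top
  obtain ⟨y, hy⟩ := (IsIntegrallyClosed.isIntegral_iff (R := O) (K := ℂ)).1 h2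
  have h3 : y ^ 3 = 1 := by
    apply IsFractionRing.injective O ℂ
    rw [map_pow, hy, map_one, hζ.pow_eq_one]
  have h4 : (1 : O) + y + y ^ 2 = 0 := by
    apply IsFractionRing.injective O ℂ
    have h5 := hζ.geom_sum_eq_zero (by norm_num : 1 < 3)
    rw [Finset.sum_range_succ, Finset.sum_range_succ, Finset.sum_range_one, pow_zero, pow_one] at h5
    rw [map_add, map_add, map_one, map_pow, hy, map_zero, h5]
  refine ⟨⟨y, y ^ 2, ?_, ?_⟩, h4⟩
  · rw [← pow_succ', h3]
  · rw [← pow_succ, h3]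

theorem exists_third (O : ValuationSubring ℂ) (h2 : (2 : O) ∈ IsLocalRing.maximalIdeal O) :
    ∃ t : O, 3 * t = 1 := by
  have h3 : IsUnit (3 : O) := by
    by_contra h
    have h4 : (3 : O) ∈ IsLocalRing.maximalIdeal O := (IsLocalRing.mem_maximalIdeal _).2 h
    have h5 := Ideal.sub_mem _ h4 h2
    have h6 : (3 : O) - 2 = 1 := by norm_num
    rw [h6] at h5
    exact (Ideal.ne_top_iff_one _).1 (IsLocalRing.maximalIdeal.isMaximal O).ne_top h5
  obtain ⟨u, hu⟩ := h3
  exact ⟨((u⁻¹ : Oˣ) : O), by rw [← hu, Units.mul_inv]⟩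

/-- The projection. -/
def projC {G : Type} [Group G] (H : Subgroup G) :
    (H.prod C3 : Subgroup (G × DihedralGroup 3)) →* H where
  toFun := fun x => ⟨x.1.1, (Subgroup.mem_prod.1 x.2).1⟩
  map_one' := rfl
  map_mul' := fun _ _ => rfl

theorem card_ker {G : Type} [Group G] (H : Subgroup G) {B : Type} [Group B] (f : H ≃* B) :
    Nat.card (f.toMonoidHom.comp (projC H)).ker = 3 := by
  have hC : Nat.card C3 = 3 := by
    unfold C3
    rw [Nat.card_zpowers, DihedralGroup.orderOf_r_one]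
  have e : (f.toMonoidHom.comp (projC H)).ker ≃ C3 :=
    { toFun := fun z => ⟨z.1.1.2, (Subgroup.mem_prod.1 z.1.2).2⟩
      invFun := fun c => ⟨⟨(1, c.1), Subgroup.mem_prod.2 ⟨H.one_mem, c.2⟩⟩, f.map_one⟩
      left_inv := by
        intro z
        have h1 : (⟨z.1.1.1, (Subgroup.mem_prod.1 z.1.2).1⟩ : H) = 1 := f.map_eq_one_iff.1 z.2
        have h2 : z.1.1.1 = 1 := congrArg Subtype.val h1
        apply Subtype.ext
        apply Subtype.ext
        exact Prod.ext h2.symm rfl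
      right_inv := by
        intro c
        rfl }
  rw [Nat.card_congr e, hC]

/-- The twisting data for `H × C_3`. -/
noncomputable def mkTw {R : Type} [CommRing R] {G : Type} [Group G] (H : Subgroup G) {B : Type}
    [Group B] (f : H ≃* B) (w : Rˣ) (hw : (1 : R) + w + (w : R) ^ 2 = 0) (t : R)
    (ht : 3 * t = 1) : Tw R (H.prod C3 : Subgroup (G × DihedralGroup 3)) B where
  π := f.toMonoidHom.comp (projC H)
  lam :=
    { toFun := fun x => chi w x.1.2
      map_one' := chi_one w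
      map_mul' := by
        intro x y
        obtain ⟨i, hi⟩ := mem_C3.1 (Subgroup.mem_prod.1 x.2).2
        obtain ⟨j, hj⟩ := mem_C3.1 (Subgroup.mem_prod.1 y.2).2
        change chi w (x.1.2 * y.1.2) = chi w x.1.2 * chi w y.1.2
        rw [hi, hj]
        exact chi_mul (cube hw) i j }
  t := t
  surj := by
    intro b
    obtain ⟨h, rfl⟩ := f.surjective b
    exact ⟨⟨(h, 1), Subgroup.mem_prod.2 ⟨h.2, C3.one_mem⟩⟩, rfl⟩
  cen := by
    intro z hz a
    have h1 : (⟨z.1.1, (Subgroup.mem_prod.1 z.2).1⟩ : H) = 1 := f.map_eq_one_iff.1 hz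
    have h2 : z.1.1 = 1 := congrArg Subtype.val h1
    obtain ⟨i, hi⟩ := mem_C3.1 (Subgroup.mem_prod.1 z.2).2
    obtain ⟨j, hj⟩ := mem_C3.1 (Subgroup.mem_prod.1 a.2).2
    apply Subtype.ext
    apply Prod.ext
    · change z.1.1 * a.1.1 = a.1.1 * z.1.1
      rw [h2, one_mul, mul_one]
    · change z.1.2 * a.1.2 = a.1.2 * z.1.2
      rw [hi, hj, DihedralGroup.r_mul_r, DihedralGroup.r_mul_r, add_comm]
  card := card_ker H f
  t3 := ht
  sum := by
    intro z hz hz1
    have h1 : (⟨z.1.1, (Subgroup.mem_prod.1 z.2).1⟩ : H) = 1 := f.map_eq_one_iff.1 hz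
    have h2 : z.1.1 = 1 := congrArg Subtype.val h1
    obtain ⟨i, hi⟩ := mem_C3.1 (Subgroup.mem_prod.1 z.2).2
    have h3 : i ≠ 0 := by
      rintro rfl
      apply hz1
      apply Subtype.ext
      exact Prod.ext h2 (by rw [hi]; rfl)
    have h4 : (w : R) ^ 3 = 1 := by
      have := congrArg (fun z : Rˣ => (z : R)) (cube hw)
      simpa using this
    change 1 + ((chi w z.1.2 : Rˣ) : R) + ((chi w z.1.2 : Rˣ) : R) ^ 2 = 0
    rw [hi, chi_r]
    push_cast
    have h5 : i = 1 ∨ i = 2 := by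
      have h6 : ∀ i : ZMod 3, i ≠ 0 → i = 1 ∨ i = 2 := by decide
      exact h6 i h3
    rcases h5 with rfl | rfl
    · have e1 : (1 : ZMod 3).val = 1 := rfl
      rw [e1, pow_one, hw]
    · have e2 : (2 : ZMod 3).val = 2 := rfl
      rw [e2]
      linear_combination hw + (w : R) * h4

theorem exists_tw (O : ValuationSubring ℂ) (h2 : (2 : O) ∈ IsLocalRing.maximalIdeal O) {G : Type}
    [Group G] (H : Subgroup G) :
    ∃ W : Tw O (H.prod C3 : Subgroup (G × DihedralGroup 3)) H,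
      ∀ x, W.π x = ⟨x.1.1, (Subgroup.mem_prod.1 x.2).1⟩ := by
  obtain ⟨w, hw⟩ := exists_omega O
  obtain ⟨t, ht⟩ := exists_third O h2
  exact ⟨mkTw H (MulEquiv.refl H) w hw t ht, fun _ => rfl⟩

/-- The twisted element as a tensor product. -/
theorem incl_tw {R : Type} [CommRing R] {G : Type} [Group G] [Fintype G] (H : Subgroup G)
    {B : Type} [Group B] (f : H ≃* B) (w : Rˣ) (hw : (1 : R) + w + (w : R) ^ 2 = 0) (t : R)
    (ht : 3 * t = 1) (y : MonoidAlgebra R B) (u : MonoidAlgebra R G)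
    (h1 : ∀ h : H, u.coeff (h : G) = y.coeff (f h)) (h0 : ∀ g, g ∉ H → u.coeff g = 0) :
    incl R (H.prod C3 : Subgroup (G × DihedralGroup 3)) (tw (mkTw H f w hw t ht) y) =
      tens u (cw w t) := by
  ext ⟨g, s⟩
  rw [tens_coeff]
  by_cases hg : g ∈ H
  · cases s with
    | r i =>
      have hm : (g, DihedralGroup.r i) ∈ H.prod C3 := Subgroup.mem_prod.2 ⟨hg, r_mem i⟩
      have h2 := incl_coeff (H.prod C3) (tw (mkTw H f w hw t ht) y) ⟨_, hm⟩
      change (incl R (H.prod C3) (tw (mkTw H f w hw t ht) y)).coeff (g, DihedralGroup.r i) = _ at h2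
      rw [h2, tw_coeff, cw_r, mul_comm]
      congr 1
      exact (h1 ⟨g, hg⟩).symm
    | sr i =>
      rw [cw_sr, mul_zero]
      exact incl_supp _ _ fun h => sr_notMem i (Subgroup.mem_prod.1 h).2
  · rw [h0 g hg, zero_mul]
    exact incl_supp _ _ fun h => hg (Subgroup.mem_prod.1 h).1

/-- The sum of the two conjugates has one simple module. -/
theorem simple_two' (O : ValuationSubring ℂ) {K : Type} [Group K] [Fintype K] {H : Subgroup K}
    (hH : H.index = 2)
    (b : MonoidAlgebra O H) (hb : IsBlock b) (hFF : incl O H b * inv' (incl O H b) = 0)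
    (hc : ∀ g, g ∉ H → cj g (incl O H b) = inv' (incl O H b)) (hone : OneSimple (toK O H b)) :
    Nonempty (SimpleQuot (toK O K (incl O H b + inv' (incl O H b)))) := by
  have hHn : H.Normal := Subgroup.normal_of_index_eq_two hH
  obtain ⟨z, hz⟩ : ∃ z, z ∉ H := by
    by_contra hcon
    push Not at hcon
    have h8 : H = ⊤ := by
      rw [eq_top_iff]
      intro g _
      exact hcon g
    rw [h8, Subgroup.index_top] at hH
    omega
  have halg : IsAlgClosed (resK O) := resK_isAlgClosed O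
  obtain ⟨he0, he, hec, -⟩ := isBlock_two b hb hFF hc ⟨z, hz⟩
  obtain ⟨e, hedef⟩ : ∃ e, e = incl O H b + inv' (incl O H b) := ⟨_, rfl⟩
  rw [← hedef] at he0 he hec
  have hk0 : toK O K e ≠ 0 := fun h => he0 (idem_eq_zero O he h)
  have hee : toK O K e = toK O K (incl O H b + inv' (incl O H b)) := by rw [hedef]
  rw [← hee]
  apply simpleQuot_of_oneSimple (toK O K e) hk0 (by rw [← map_mul, he])
    (fun y => by
      obtain ⟨y', rfl⟩ := toK_surjective O y
      rw [← map_mul, ← map_mul, hec])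
  obtain ⟨-, hbb, hbc, -⟩ := id hb
  have hbbk : toK O H b * toK O H b = toK O H b := by
    rw [← map_mul, hbb]
  have hbck : ∀ a, a * toK O H b = toK O H b * a := by
    intro a
    obtain ⟨a', rfl⟩ := toK_surjective O a
    rw [← map_mul, ← map_mul, hbc]
  have hcase : ∀ g, g ∈ H ∨ z⁻¹ * g ∈ H := by
    intro g
    by_cases hg : g ∈ H
    · exact Or.inl hg
    · right
      exact (Subgroup.mul_mem_iff_of_index_two hH (a := z⁻¹) (b := g)).2
        (by
          constructor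
          · intro h
            exact absurd (by simpa using H.inv_mem h) hz
          · intro h
            exact absurd h hg)
  have hzz : z * z ∈ H := by
    apply (Subgroup.mul_mem_iff_of_index_two hH (a := z) (b := z)).2
    exact Iff.rfl
  have hincl : toK O K e = incl (resK O) H (toK O H b) +
      cj z (incl (resK O) H (toK O H b)) := by
    rw [← toK_incl, ← toK_cj, hc z hz, ← map_add, hedef]
  rw [hincl]
  have hFF2 : inv' (incl O H b) * incl O H b = 0 := by
    have h1 := congrArg (cj z) hFF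
    rw [cj_mul, ← cj_inv', hc z hz, inv'_inv'] at h1
    rw [h1]
    unfold cj
    rw [mul_zero, zero_mul]
  refine oneSimple_two z hcase hzz (fun h hh => ?_) _ hbbk hbck ?_ ?_ hone
  · have h9 := hHn.conj_mem h hh z⁻¹
    rwa [inv_inv] at h9
  · rw [← toK_incl, ← toK_cj, hc z hz, ← map_mul, hFF, map_zero]
  · rw [← toK_incl, ← toK_cj, hc z hz, ← map_mul, hFF2, map_zero]

section eps

variable {R : Type} [CommRing R]

/-- The idempotent of the representation of degree two. -/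
noncomputable def eps (w : Rˣ) (t : R) : MonoidAlgebra R (DihedralGroup 3) := cw w t + cw w⁻¹ t

theorem inv_data {w : Rˣ} (hw : (1 : R) + w + (w : R) ^ 2 = 0) :
    w⁻¹ = w ^ 2 ∧ (1 : R) + ((w⁻¹ : Rˣ) : R) + ((w⁻¹ : Rˣ) : R) ^ 2 = 0 := by
  have h3 := cube hw
  have hi : w⁻¹ = w ^ 2 := by
    rw [inv_eq_iff_mul_eq_one, ← pow_succ', h3]
  have h4 : (w : R) ^ 3 = 1 := by
    have := congrArg (fun z : Rˣ => (z : R)) h3
    simpa using this
  refine ⟨hi, ?_⟩
  rw [hi]
  push_cast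
  linear_combination hw + (w : R) * h4

theorem eps_zero {w : Rˣ} (t : R) :
    (eps w t).coeff (DihedralGroup.r 0) = t + t := by
  have e0 : (0 : ZMod 3).val = 0 := rfl
  unfold eps
  rw [MonoidAlgebra.coeff_add, Finsupp.add_apply, cw_r, cw_r, chi_r, chi_r, e0, pow_zero, pow_zero,
    inv_one, Units.val_one, mul_one]

theorem eps_one {w : Rˣ} (hw : (1 : R) + w + (w : R) ^ 2 = 0) (t : R) :
    (eps w t).coeff (DihedralGroup.r 1) = -t := by
  obtain ⟨hi, -⟩ := inv_data hw
  have e1 : (1 : ZMod 3).val = 1 := rfl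
  unfold eps
  rw [MonoidAlgebra.coeff_add, Finsupp.add_apply, cw_r, cw_r, chi_r, chi_r, e1, pow_one, pow_one,
    inv_inv, hi]
  push_cast
  linear_combination t * hw

theorem eps_two {w : Rˣ} (hw : (1 : R) + w + (w : R) ^ 2 = 0) (t : R) :
    (eps w t).coeff (DihedralGroup.r 2) = -t := by
  obtain ⟨hi, -⟩ := inv_data hw
  have e2 : (2 : ZMod 3).val = 2 := rfl
  have u2 : (w ^ 2)⁻¹ = w := by rw [← hi, inv_inv]
  unfold eps
  rw [MonoidAlgebra.coeff_add, Finsupp.add_apply, cw_r, cw_r, chi_r, chi_r, e2, u2, inv_pow, u2, hi]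
  push_cast
  linear_combination t * hw

theorem eps_sr {w : Rˣ} (t : R) (i : ZMod 3) :
    (eps w t).coeff (DihedralGroup.sr i) = 0 := by
  unfold eps
  rw [MonoidAlgebra.coeff_add, Finsupp.add_apply, cw_sr, cw_sr, add_zero]

theorem inv_pow3 {w : Rˣ} (hw : (1 : R) + w + (w : R) ^ 2 = 0) : w⁻¹ ^ 3 = 1 := by
  rw [inv_pow, cube hw, inv_one]

theorem cw_orth' {w : Rˣ} (hw : (1 : R) + w + (w : R) ^ 2 = 0) (t : R) :
    cw w⁻¹ t * cw w t = 0 := by
  have h := cw_orth (inv_data hw).2 t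
  rwa [inv_inv] at h

theorem eps_idem {w : Rˣ} (hw : (1 : R) + w + (w : R) ^ 2 = 0) {t : R} (ht : 3 * t = 1) :
    eps w t * eps w t = eps w t := by
  unfold eps
  rw [add_mul, mul_add, mul_add, cw_idem (cube hw) ht, cw_orth hw, cw_orth' hw,
    cw_idem (inv_pow3 hw) ht, add_zero, zero_add]

theorem eps_cw {w : Rˣ} (hw : (1 : R) + w + (w : R) ^ 2 = 0) {t : R} (ht : 3 * t = 1) :
    eps w t * cw w t = cw w t := by
  unfold eps
  rw [add_mul, cw_idem (cube hw) ht, cw_orth' hw, add_zero]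

theorem el_eps {w : Rˣ} (hw : (1 : R) + w + (w : R) ^ 2 = 0) (t : R) :
    (el R (DihedralGroup.r (1 : ZMod 3)) + el R (DihedralGroup.r (2 : ZMod 3))) * eps w t =
      -eps w t := by
  obtain ⟨hi, -⟩ := inv_data hw
  have e1 : (1 : ZMod 3).val = 1 := rfl
  have e2 : (2 : ZMod 3).val = 2 := rfl
  have u2 : (w ^ 2)⁻¹ = w := by rw [← hi, inv_inv]
  unfold eps
  rw [mul_add, add_mul, add_mul, el_cw (cube hw), el_cw (cube hw), el_cw (inv_pow3 hw),
    el_cw (inv_pow3 hw), chi_r, chi_r, chi_r, chi_r, e1, e2, pow_one, pow_one, inv_pow, u2, hi,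
    ← add_smul, ← add_smul, neg_add]
  have h1 : ((w : Rˣ) : R) + ((w ^ 2 : Rˣ) : R) = -1 := by
    push_cast
    linear_combination hw
  rw [h1, add_comm ((w ^ 2 : Rˣ) : R), h1, neg_one_smul, neg_one_smul]

theorem sumD (f : DihedralGroup 3 → R) : ∑ s, f s =
    ∑ i : ZMod 3, f (DihedralGroup.r i) + ∑ i : ZMod 3, f (DihedralGroup.sr i) := by
  let E : ZMod 3 ⊕ ZMod 3 ≃ DihedralGroup 3 :=
    { toFun := fun x => Sum.elim DihedralGroup.r DihedralGroup.sr x
      invFun := fun s => match s with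
        | DihedralGroup.r i => Sum.inl i
        | DihedralGroup.sr i => Sum.inr i
      left_inv := by
        rintro (i | i)
        · rfl
        · rfl
      right_inv := by
        rintro (i | i)
        · rfl
        · rfl }
  rw [← Equiv.sum_comp E, Fintype.sum_sum_type]
  rfl

theorem eps_sum {w : Rˣ} (hw : (1 : R) + w + (w : R) ^ 2 = 0) {t : R} (ht : 3 * t = 1) :
    ∑ s : DihedralGroup 3, (eps w t).coeff (s * s) = 2 := by
  rw [sumD, sum3, sum3]
  simp only [DihedralGroup.r_mul_r, DihedralGroup.sr_mul_sr, sub_self, eps_zero]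
  have a1 : (1 : ZMod 3) + 1 = 2 := by decide
  have a2 : (2 : ZMod 3) + 2 = 1 := by decide
  rw [a1, a2, add_zero, eps_zero, eps_two hw, eps_one hw]
  linear_combination 2 * ht

end eps

theorem classSum_coeff {R : Type} [CommRing R] {G : Type} [Group G] [Fintype G] (x g : G) :
    (classSum R x).coeff g = if IsConj x g then 1 else 0 := by
  unfold classSum
  rw [MonoidAlgebra.coeff_sum, Finsupp.finsetSum_apply,
    Finset.sum_congr rfl (fun x _ => el_coeff x g), Finset.sum_ite_eq']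
  simp only [Finset.mem_filter, Finset.mem_univ, true_and]

theorem conj_r {s : DihedralGroup 3} : IsConj (DihedralGroup.r (1 : ZMod 3)) s ↔
    s = DihedralGroup.r 1 ∨ s = DihedralGroup.r 2 := by
  rw [isConj_iff]
  constructor
  · rintro ⟨c, rfl⟩
    cases c with
    | r i =>
      left
      rw [DihedralGroup.inv_r, DihedralGroup.r_mul_r, DihedralGroup.r_mul_r]
      congr 1
      ring
    | sr i =>
      right
      rw [DihedralGroup.inv_sr, DihedralGroup.sr_mul_r, DihedralGroup.sr_mul_sr]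
      congr 1
      have : i - (i + 1) = -1 := by ring
      rw [this]
      decide
  · rintro (rfl | rfl)
    · exact ⟨1, by group⟩
    · exact ⟨DihedralGroup.sr 0, by decide⟩

theorem classSum_prod {R : Type} [CommRing R] {G : Type} [Group G] [Fintype G] (x : G) :
    classSum R ((x, DihedralGroup.r 1) : G × DihedralGroup 3) =
      tens (classSum R x) (el R (DihedralGroup.r (1 : ZMod 3)) +
        el R (DihedralGroup.r (2 : ZMod 3))) := by
  ext ⟨g, s⟩
  rw [classSum_coeff, tens_coeff, classSum_coeff, MonoidAlgebra.coeff_add, Finsupp.add_apply,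
    el_coeff, el_coeff]
  have hiff : IsConj ((x, DihedralGroup.r 1) : G × DihedralGroup 3) (g, s) ↔
      IsConj x g ∧ (s = DihedralGroup.r 1 ∨ s = DihedralGroup.r 2) := by
    rw [← conj_r, isConj_iff, isConj_iff, isConj_iff]
    constructor
    · rintro ⟨⟨c, d⟩, h⟩
      exact ⟨⟨c, congrArg Prod.fst h⟩, ⟨d, congrArg Prod.snd h⟩⟩
    · rintro ⟨⟨c, hc⟩, ⟨d, hd⟩⟩
      exact ⟨(c, d), Prod.ext hc hd⟩
  have hne : (DihedralGroup.r (1 : ZMod 3)) ≠ DihedralGroup.r 2 := by decide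
  by_cases h1 : IsConj x g
  · rw [if_pos h1, one_mul]
    by_cases h2 : s = DihedralGroup.r 1
    · rw [if_pos (hiff.2 ⟨h1, Or.inl h2⟩), if_pos h2.symm, if_neg, add_zero]
      rw [h2]
      exact hne.symm
    · by_cases h3 : s = DihedralGroup.r 2
      · rw [if_pos (hiff.2 ⟨h1, Or.inr h3⟩), if_neg (fun h => h2 h.symm), if_pos h3.symm, zero_add]
      · rw [if_neg (fun h => (hiff.1 h).2.elim h2 h3), if_neg (fun h => h2 h.symm),
          if_neg (fun h => h3 h.symm), add_zero]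
  · rw [if_neg h1, if_neg (fun h => h1 (hiff.1 h).1), zero_mul]

/-! ### The defect pair -/

section pair

variable {G : Type} [Group G] [Fintype G] {x : G} {D E : Subgroup G}

/-- The group `D ∪ (E ∖ D) s`. -/
def pairE (h : IsDefectPair x D E) : Subgroup (G × DihedralGroup 3) where
  carrier := {g | g.1 ∈ E ∧ ((g.1 ∈ D ∧ g.2 = 1) ∨ (g.1 ∉ D ∧ g.2 = DihedralGroup.sr 0))}
  one_mem' := ⟨E.one_mem, Or.inl ⟨D.one_mem, rfl⟩⟩
  mul_mem' := by
    rintro ⟨a, s⟩ ⟨b, t⟩ ⟨ha, has⟩ ⟨hb, hbt⟩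
    refine ⟨E.mul_mem ha hb, ?_⟩
    have hs2 : (DihedralGroup.sr 0 : DihedralGroup 3) * DihedralGroup.sr 0 = 1 := by decide
    rcases has with ⟨ha1, ha2⟩ | ⟨ha1, ha2⟩ <;> rcases hbt with ⟨hb1, hb2⟩ | ⟨hb1, hb2⟩
    · refine Or.inl ⟨D.mul_mem ha1 hb1, ?_⟩
      change s * t = 1
      change s = 1 at ha2
      change t = 1 at hb2
      rw [ha2, hb2, one_mul]
    · refine Or.inr ⟨fun h' => hb1 ((Subgroup.mul_mem_cancel_left D ha1).1 h'), ?_⟩
      change s * t = _
      change s = 1 at ha2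
      change t = _ at hb2
      rw [ha2, hb2, one_mul]
    · refine Or.inr ⟨fun h' => ha1 ((Subgroup.mul_mem_cancel_right D hb1).1 h'), ?_⟩
      change s * t = _
      change s = _ at ha2
      change t = _ at hb2
      rw [ha2, hb2, mul_one]
    · refine Or.inl ⟨?_, ?_⟩
      · have h1 := t_mul_mem h (E.inv_mem ha) (fun h' => ha1 (by simpa using D.inv_mem h')) hb hb1
        rwa [inv_inv] at h1
      · change s * t = 1
        change s = _ at ha2
        change t = _ at hb2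
        rw [ha2, hb2, hs2]
  inv_mem' := by
    rintro ⟨a, s⟩ ⟨ha, has⟩
    refine ⟨E.inv_mem ha, ?_⟩
    rcases has with ⟨ha1, ha2⟩ | ⟨ha1, ha2⟩
    · refine Or.inl ⟨D.inv_mem ha1, ?_⟩
      change s⁻¹ = 1
      change s = 1 at ha2
      rw [ha2, inv_one]
    · refine Or.inr ⟨fun h' => ha1 (by simpa using D.inv_mem h'), ?_⟩
      change s⁻¹ = _
      change s = _ at ha2
      rw [ha2, DihedralGroup.inv_sr]

theorem mem_pairE (h : IsDefectPair x D E) (g : G) (s : DihedralGroup 3) :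
    (g, s) ∈ pairE h ↔ g ∈ E ∧ ((g ∈ D ∧ s = 1) ∨ (g ∉ D ∧ s = DihedralGroup.sr 0)) := Iff.rfl

theorem card_pairE (h : IsDefectPair x D E) : Nat.card (pairE h) = Nat.card E := by
  refine Nat.card_congr
    { toFun := fun z => ⟨z.1.1, z.2.1⟩
      invFun := fun y => ⟨(y.1, if y.1 ∈ D then 1 else DihedralGroup.sr 0), y.2, ?_⟩
      left_inv := ?_
      right_inv := ?_ }
  · by_cases hy : y.1 ∈ D
    · left
      exact ⟨hy, if_pos hy⟩
    · right
      exact ⟨hy, if_neg hy⟩
  · rintro ⟨⟨a, s⟩, ha, has⟩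
    apply Subtype.ext
    apply Prod.ext
    · rfl
    · change (if a ∈ D then (1 : DihedralGroup 3) else DihedralGroup.sr 0) = s
      rcases has with ⟨ha1, ha2⟩ | ⟨ha1, ha2⟩
      · rw [if_pos ha1]
        exact ha2.symm
      · rw [if_neg ha1]
        exact ha2.symm
  · intro y
    rfl

theorem x_ne (hx : Odd (orderOf x)) (h : IsDefectPair x D E) (hne : D ≠ E) : x ≠ x⁻¹ := by
  intro hxx
  have h1 : x ^ 2 = 1 := by
    rw [pow_two]
    nth_rewrite 2 [hxx]
    rw [mul_inv_cancel]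
  have h2 : orderOf x ∣ 2 := orderOf_dvd_of_pow_eq_one h1
  have h3 : orderOf x = 1 := by
    rcases (Nat.dvd_prime Nat.prime_two).1 h2 with h3 | h3
    · exact h3
    · rw [h3] at hx
      exact absurd hx (by decide)
  have h4 : x = 1 := orderOf_eq_one_iff.1 h3
  obtain ⟨t, ht, ht'⟩ := exists_t h hne
  apply ht'
  rw [inf_cent_eq h]
  refine ⟨ht, mem_cent_iff.2 ?_⟩
  rw [h4]
  group

theorem mem_cent_prod (g : G) (s : DihedralGroup 3) :
    (g, s) ∈ cent ((x, DihedralGroup.r 1) : G × DihedralGroup 3) ↔ g ∈ cent x ∧ s ∈ C3 := by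
  rw [mem_cent_iff, mem_cent_iff, Prod.ext_iff]
  refine and_congr Iff.rfl ?_
  change s * DihedralGroup.r 1 * s⁻¹ = DihedralGroup.r 1 ↔ _
  cases s with
  | r i =>
    rw [DihedralGroup.inv_r, DihedralGroup.r_mul_r, DihedralGroup.r_mul_r]
    have : i + 1 + -i = 1 := by ring
    rw [this]
    exact ⟨fun _ => r_mem i, fun _ => rfl⟩
  | sr i =>
    rw [DihedralGroup.inv_sr, DihedralGroup.sr_mul_r, DihedralGroup.sr_mul_sr]
    have : i - (i + 1) = -1 := by ring
    rw [this]
    constructor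
    · intro h
      exact absurd h (by decide)
    · intro h
      exact absurd h (sr_notMem i)

theorem mem_extCent_prod (g : G) (s : DihedralGroup 3) :
    (g, s) ∈ extCent ((x, DihedralGroup.r 1) : G × DihedralGroup 3) ↔
      (g * x * g⁻¹ = x ∧ s ∈ C3) ∨ (g * x * g⁻¹ = x⁻¹ ∧ s ∉ C3) := by
  change (_ ∨ _) ↔ _
  rw [Prod.ext_iff, Prod.ext_iff]
  change (g * x * g⁻¹ = x ∧ s * DihedralGroup.r 1 * s⁻¹ = DihedralGroup.r 1) ∨
    (g * x * g⁻¹ = x⁻¹ ∧ s * DihedralGroup.r 1 * s⁻¹ = (DihedralGroup.r 1)⁻¹) ↔ _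
  cases s with
  | r i =>
    rw [DihedralGroup.inv_r, DihedralGroup.r_mul_r, DihedralGroup.r_mul_r, DihedralGroup.inv_r]
    have : i + 1 + -i = 1 := by ring
    rw [this]
    have hd : (DihedralGroup.r 1 : DihedralGroup 3) ≠ DihedralGroup.r (-1) := by decide
    constructor
    · rintro (⟨h1, -⟩ | ⟨-, h2⟩)
      · exact Or.inl ⟨h1, r_mem i⟩
      · exact absurd h2 hd
    · rintro (⟨h1, -⟩ | ⟨-, h2⟩)
      · exact Or.inl ⟨h1, rfl⟩
      · exact absurd (r_mem i) h2
  | sr i =>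
    rw [DihedralGroup.inv_sr, DihedralGroup.sr_mul_r, DihedralGroup.sr_mul_sr, DihedralGroup.inv_r]
    have : i - (i + 1) = -1 := by ring
    rw [this]
    have hd : (DihedralGroup.r (-1) : DihedralGroup 3) ≠ DihedralGroup.r 1 := by decide
    constructor
    · rintro (⟨-, h2⟩ | ⟨h1, -⟩)
      · exact absurd h2 hd
      · exact Or.inr ⟨h1, sr_notMem i⟩
    · rintro (⟨-, h2⟩ | ⟨h1, -⟩)
      · exact absurd h2 (sr_notMem i)
      · exact Or.inr ⟨h1, rfl⟩

theorem card_cent_prod : Nat.card (cent ((x, DihedralGroup.r 1) : G × DihedralGroup 3)) =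
    3 * Nat.card (cent x) := by
  have h1 : cent ((x, DihedralGroup.r 1) : G × DihedralGroup 3) = (cent x).prod C3 := by
    ext ⟨g, s⟩
    rw [mem_cent_prod, Subgroup.mem_prod]
  have hC : Nat.card C3 = 3 := by
    unfold C3
    rw [Nat.card_zpowers, DihedralGroup.orderOf_r_one]
  rw [h1, Nat.card_congr (Subgroup.prodEquiv (cent x) C3).toEquiv, Nat.card_prod, hC, mul_comm]

theorem card_extCent_prod (hxx : x ≠ x⁻¹) :
    Nat.card (extCent ((x, DihedralGroup.r 1) : G × DihedralGroup 3)) =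
      3 * Nat.card (extCent x) := by
  have h3 : 3 * Nat.card (extCent x) = Nat.card (extCent x × ZMod 3) := by
    rw [Nat.card_prod, Nat.card_zmod, mul_comm]
  rw [h3]
  let idx : DihedralGroup 3 → ZMod 3 := fun s => match s with
    | DihedralGroup.r i => i
    | DihedralGroup.sr i => i
  refine Nat.card_congr
    { toFun := fun z => (⟨z.1.1, ?_⟩, idx z.1.2)
      invFun := fun y => ⟨(y.1.1, if y.1.1 * x * y.1.1⁻¹ = x then DihedralGroup.r y.2 else
        DihedralGroup.sr y.2), ?_⟩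
      left_inv := ?_
      right_inv := ?_ }
  · have h4 := (mem_extCent_prod (x := x) z.1.1 z.1.2).1 z.2
    rcases h4 with ⟨h5, -⟩ | ⟨h5, -⟩
    · exact Or.inl h5
    · exact Or.inr h5
  · rw [mem_extCent_prod]
    rcases y.1.2 with h5 | h5
    · left
      refine ⟨h5, ?_⟩
      rw [if_pos h5]
      exact r_mem _
    · right
      refine ⟨h5, ?_⟩
      rw [if_neg (fun h7 => hxx (by rw [← h5, h7]))]
      exact sr_notMem _
  · rintro ⟨⟨g, s⟩, hz⟩
    have h4 := (mem_extCent_prod (x := x) g s).1 hz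
    apply Subtype.ext
    apply Prod.ext
    · rfl
    · change (if g * x * g⁻¹ = x then DihedralGroup.r (idx s) else DihedralGroup.sr (idx s)) = s
      rcases h4 with ⟨h5, h6⟩ | ⟨h5, h6⟩
      · rw [if_pos h5]
        obtain ⟨i, rfl⟩ := mem_C3.1 h6
        rfl
      · rw [if_neg (fun h7 => hxx (by rw [← h5, h7]))]
        cases s with
        | r i => exact absurd (r_mem i) h6
        | sr i => rfl
  · rintro ⟨⟨g, hg⟩, i⟩
    apply Prod.ext
    · rfl
    · change idx (if g * x * g⁻¹ = x then DihedralGroup.r i else DihedralGroup.sr i) = i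
      split_ifs <;> rfl

theorem fact3 (n : ℕ) (hn : n ≠ 0) : (3 * n).factorization 2 = n.factorization 2 := by
  rw [Nat.factorization_mul (by norm_num) hn, Finsupp.add_apply,
    Nat.factorization_eq_zero_of_not_dvd (by norm_num : ¬ 2 ∣ 3), zero_add]

theorem pair_prod (hx : Odd (orderOf x)) (h : IsDefectPair x D E) (hne : D ≠ E) :
    IsDefectPair ((x, DihedralGroup.r 1) : G × DihedralGroup 3) (D.prod ⊥) (pairE h) := by
  have hxx := x_ne hx h hne
  refine ⟨?_, ?_, ?_, ?_, ?_⟩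
  · rintro ⟨g, s⟩ hg
    obtain ⟨h1, h2⟩ := Subgroup.mem_prod.1 hg
    exact (mem_pairE h g s).2 ⟨h.1 h1, Or.inl ⟨h1, Subgroup.mem_bot.1 h2⟩⟩
  · rintro ⟨g, s⟩ hg
    obtain ⟨h1, h2⟩ := Subgroup.mem_prod.1 hg
    have h3 : s = 1 := Subgroup.mem_bot.1 h2
    rw [h3]
    exact (mem_cent_prod g 1).2 ⟨h.2.1 h1, C3.one_mem⟩
  · rintro ⟨g, s⟩ hg
    obtain ⟨h1, h2⟩ := (mem_pairE h g s).1 hg
    rw [mem_extCent_prod]
    rcases h2 with ⟨h3, h4⟩ | ⟨h3, h4⟩
    · left
      rw [h4]
      exact ⟨mem_cent_iff.1 (h.2.1 h3), C3.one_mem⟩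
    · right
      rw [h4]
      exact ⟨defectPair_t h h1 h3, sr_notMem 0⟩
  · rw [card_cent_prod, fact3 _ Nat.card_pos.ne', ← h.2.2.2.1,
      Nat.card_congr (Subgroup.prodEquiv D ⊥).toEquiv, Nat.card_prod, Subgroup.card_bot, mul_one]
  · rw [card_extCent_prod hxx, fact3 _ Nat.card_pos.ne', ← h.2.2.2.2, card_pairE]

end pair

end Pool.Agent.Helper28.ST
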