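import Pool.Agent.Helper36.ST.One
import Pool.Agent.Helper36.NC.C

/-!
# Tensor products of elements of group algebras, the symmetric group of degree three
-/

set_option autoImplicit false
set_option linter.unusedSectionVars false
open scoped BigOperators MonoidAlgebra
open Classical

namespace Pool.Agent.Helper28.ST

open Pool.Agent.Helper36.ST Pool.Agent.Helper36.NB Pool.Agent.Helper44.S3 Pool.Agent.Helper36.NC

/-- The rotations. -/
def C3 : Subgroup (DihedralGroup 3) := Subgroup.zpowers (DihedralGroup.r 1)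

theorem mem_C3 {s : DihedralGroup 3} : s ∈ C3 ↔ ∃ i, s = DihedralGroup.r i := by
  constructor
  · rintro ⟨n, rfl⟩
    exact ⟨(n : ZMod 3), DihedralGroup.r_one_zpow n⟩
  · rintro ⟨i, rfl⟩
    refine ⟨(i.val : ℤ), ?_⟩
    change DihedralGroup.r 1 ^ ((i.val : ℕ) : ℤ) = _
    rw [zpow_natCast, DihedralGroup.r_one_pow, ZMod.natCast_zmod_val]

theorem r_mem (i : ZMod 3) : DihedralGroup.r i ∈ C3 := mem_C3.2 ⟨i, rfl⟩

theorem sr_notMem (i : ZMod 3) : DihedralGroup.sr i ∉ C3 := fun h => by
  obtain ⟨j, hj⟩ := mem_C3.1 h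
  cases hj

section tensor

variable {R : Type} [CommRing R] {G S : Type} [Group G] [Group S]

/-- The tensor product. -/
noncomputable def tens (u : MonoidAlgebra R G) (c : MonoidAlgebra R S) : MonoidAlgebra R (G × S) :=
  MonoidAlgebra.mapDomainRingHom R (MonoidHom.inl G S) u *
    MonoidAlgebra.mapDomainRingHom R (MonoidHom.inr G S) c

theorem tens_single (g : G) (r : R) (s : S) (t : R) :
    tens (MonoidAlgebra.single g r) (MonoidAlgebra.single s t) =
      MonoidAlgebra.single (g, s) (r * t) := by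
  unfold tens
  simp [MonoidAlgebra.single_mul_single]

theorem tens_add_left (u u' : MonoidAlgebra R G) (c : MonoidAlgebra R S) :
    tens (u + u') c = tens u c + tens u' c := by
  unfold tens
  rw [map_add, add_mul]

theorem tens_add_right (u : MonoidAlgebra R G) (c c' : MonoidAlgebra R S) :
    tens u (c + c') = tens u c + tens u c' := by
  unfold tens
  rw [map_add, mul_add]

theorem tens_zero_left (c : MonoidAlgebra R S) : tens (0 : MonoidAlgebra R G) c = 0 := by
  unfold tens
  rw [map_zero, zero_mul]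

theorem tens_zero_right (u : MonoidAlgebra R G) : tens u (0 : MonoidAlgebra R S) = 0 := by
  unfold tens
  rw [map_zero, mul_zero]

theorem tens_coeff (u : MonoidAlgebra R G) (c : MonoidAlgebra R S) (g : G) (s : S) :
    (tens u c).coeff (g, s) = u.coeff g * c.coeff s := by
  induction u using MonoidAlgebra.induction_linear with
  | zero => rw [tens_zero_left]; simp
  | add x y hx hy =>
    rw [tens_add_left, MonoidAlgebra.coeff_add, Finsupp.add_apply, hx, hy, MonoidAlgebra.coeff_add,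
      Finsupp.add_apply, add_mul]
  | single g' r =>
    induction c using MonoidAlgebra.induction_linear with
    | zero => rw [tens_zero_right]; simp
    | add x y hx hy =>
      rw [tens_add_right, MonoidAlgebra.coeff_add, Finsupp.add_apply, hx, hy,
        MonoidAlgebra.coeff_add, Finsupp.add_apply, mul_add]
    | single s' t =>
      rw [tens_single]
      simp only [MonoidAlgebra.coeff_single, Finsupp.single_apply, Prod.mk.injEq]
      by_cases h1 : g' = g
      · by_cases h2 : s' = s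
        · simp [h1, h2]
        · simp [h2]
      · simp [h1]

theorem tens_mul (u u' : MonoidAlgebra R G) (c c' : MonoidAlgebra R S) :
    tens u c * tens u' c' = tens (u * u') (c * c') := by
  have hcomm : ∀ (u : MonoidAlgebra R G) (c : MonoidAlgebra R S),
      MonoidAlgebra.mapDomainRingHom R (MonoidHom.inl G S) u *
        MonoidAlgebra.mapDomainRingHom R (MonoidHom.inr G S) c =
      MonoidAlgebra.mapDomainRingHom R (MonoidHom.inr G S) c *
        MonoidAlgebra.mapDomainRingHom R (MonoidHom.inl G S) u := by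
    intro u c
    induction u using MonoidAlgebra.induction_linear with
    | zero => rw [map_zero, zero_mul, mul_zero]
    | add x y hx hy => rw [map_add, add_mul, mul_add, hx, hy]
    | single g r =>
      induction c using MonoidAlgebra.induction_linear with
      | zero => rw [map_zero, zero_mul, mul_zero]
      | add x y hx hy => rw [map_add, add_mul, mul_add, hx, hy]
      | single s t => simp [MonoidAlgebra.single_mul_single, mul_comm]
  unfold tens
  rw [map_mul, map_mul, mul_assoc, ← mul_assoc _ _ (MonoidAlgebra.mapDomainRingHom R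
    (MonoidHom.inr G S) c'), ← hcomm u' c, mul_assoc, mul_assoc]

theorem tens_inv (u : MonoidAlgebra R G) (c : MonoidAlgebra R S) :
    inv' (tens u c) = tens (inv' u) (inv' c) := by
  ext ⟨g, s⟩
  rw [inv'_coeff, tens_coeff (inv' u), inv'_coeff, inv'_coeff]
  exact tens_coeff u c g⁻¹ s⁻¹

theorem tens_cj (u : MonoidAlgebra R G) (c : MonoidAlgebra R S) (g : G) (s : S) :
    cj (g, s) (tens u c) = tens (cj g u) (cj s c) := by
  ext ⟨x, y⟩
  rw [cj_coeff, tens_coeff (cj g u), cj_coeff, cj_coeff]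
  exact tens_coeff u c (g⁻¹ * x * g) (s⁻¹ * y * s)

theorem tens_toK (O : ValuationSubring ℂ) (u : MonoidAlgebra O G) (c : MonoidAlgebra O S) :
    toK O (G × S) (tens u c) = tens (toK O G u) (toK O S c) := by
  ext ⟨x, y⟩
  rw [toK_apply, tens_coeff, tens_coeff, map_mul, toK_apply, toK_apply]

theorem tens_smul_right (a : R) (u : MonoidAlgebra R G) (c : MonoidAlgebra R S) :
    tens u (a • c) = a • tens u c := by
  ext ⟨x, y⟩
  rw [tens_coeff, MonoidAlgebra.coeff_smul, MonoidAlgebra.coeff_smul, Finsupp.smul_apply,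
    Finsupp.smul_apply, tens_coeff, smul_eq_mul, smul_eq_mul]
  ring

end tensor

section chi

variable {R : Type} [CommRing R]

/-- The linear character of the rotations. -/
noncomputable def chi (w : Rˣ) : DihedralGroup 3 → Rˣ
  | DihedralGroup.r i => w ^ i.val
  | DihedralGroup.sr _ => 1

theorem chi_r (w : Rˣ) (i : ZMod 3) : chi w (DihedralGroup.r i) = w ^ i.val := rfl

theorem cube {w : Rˣ} (hw : (1 : R) + w + (w : R) ^ 2 = 0) : w ^ 3 = 1 := by
  apply Units.ext
  push_cast
  have h : (w : R) ^ 3 - 1 = ((w : R) - 1) * (1 + w + (w : R) ^ 2) := by ring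
  rw [hw, mul_zero, sub_eq_zero] at h
  exact h

theorem chi_one (w : Rˣ) : chi w 1 = 1 := by
  rw [DihedralGroup.one_def, chi_r, ZMod.val_zero, pow_zero]

theorem chi_mul {w : Rˣ} (hw : w ^ 3 = 1) (i j : ZMod 3) :
    chi w (DihedralGroup.r i * DihedralGroup.r j) =
      chi w (DihedralGroup.r i) * chi w (DihedralGroup.r j) := by
  rw [DihedralGroup.r_mul_r, chi_r, chi_r, chi_r, ZMod.val_add, ← pow_add]
  conv_rhs => rw [← Nat.mod_add_div (i.val + j.val) 3, pow_add, pow_mul, hw, one_pow, mul_one]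

/-- The idempotent of the linear character. -/
noncomputable def cw (w : Rˣ) (t : R) : MonoidAlgebra R (DihedralGroup 3) :=
  ∑ i : ZMod 3, (t * ((chi w (DihedralGroup.r i))⁻¹ : Rˣ)) • el R (DihedralGroup.r i)

theorem cw_r (w : Rˣ) (t : R) (i : ZMod 3) :
    (cw w t).coeff (DihedralGroup.r i) = t * ((chi w (DihedralGroup.r i))⁻¹ : Rˣ) := by
  unfold cw
  rw [MonoidAlgebra.coeff_sum, Finsupp.finsetSum_apply, Finset.sum_eq_single i]
  · rw [MonoidAlgebra.coeff_smul, Finsupp.smul_apply, el_coeff, if_pos rfl, smul_eq_mul, mul_one]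
  · intro j _ hj
    rw [MonoidAlgebra.coeff_smul, Finsupp.smul_apply, el_coeff, if_neg, smul_eq_mul, mul_zero]
    intro h
    apply hj
    injection h
  · exact fun h => absurd (Finset.mem_univ _) h

theorem cw_sr (w : Rˣ) (t : R) (i : ZMod 3) :
    (cw w t).coeff (DihedralGroup.sr i) = 0 := by
  unfold cw
  rw [MonoidAlgebra.coeff_sum, Finsupp.finsetSum_apply]
  refine Finset.sum_eq_zero fun j _ => ?_
  rw [MonoidAlgebra.coeff_smul, Finsupp.smul_apply, el_coeff, if_neg, smul_eq_mul, mul_zero]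
  intro h
  cases h

theorem chi_inv {w : Rˣ} (hw : w ^ 3 = 1) (i : ZMod 3) :
    chi w (DihedralGroup.r (-i)) = (chi w (DihedralGroup.r i))⁻¹ := by
  rw [eq_inv_iff_mul_eq_one, ← chi_mul hw, DihedralGroup.r_mul_r, neg_add_cancel,
    ← DihedralGroup.one_def, chi_one]

theorem chi_inv' (w : Rˣ) (i : ZMod 3) :
    chi w⁻¹ (DihedralGroup.r i) = (chi w (DihedralGroup.r i))⁻¹ := by
  rw [chi_r, chi_r, inv_pow]

theorem inv_cw {w : Rˣ} (hw : w ^ 3 = 1) (t : R) : inv' (cw w t) = cw w⁻¹ t := by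
  ext s
  rw [inv'_coeff]
  cases s with
  | r i => rw [DihedralGroup.inv_r, cw_r, cw_r, chi_inv hw, chi_inv']
  | sr i => rw [DihedralGroup.inv_sr, cw_sr, cw_sr]

theorem cj_cw {w : Rˣ} (hw : w ^ 3 = 1) (t : R) (j : ZMod 3) :
    cj (DihedralGroup.sr j) (cw w t) = cw w⁻¹ t := by
  ext s
  rw [cj_coeff, DihedralGroup.inv_sr]
  cases s with
  | r i =>
    rw [DihedralGroup.sr_mul_r, DihedralGroup.sr_mul_sr, cw_r, cw_r, chi_inv']
    have e : j - (j + i) = -i := by ring
    rw [e, chi_inv hw]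
  | sr i =>
    rw [DihedralGroup.sr_mul_sr, DihedralGroup.r_mul_sr, cw_sr, cw_sr]

theorem cj_cw_r {w : Rˣ} (t : R) (j : ZMod 3) :
    cj (DihedralGroup.r j) (cw w t) = cw w t := by
  ext s
  rw [cj_coeff, DihedralGroup.inv_r]
  cases s with
  | r i =>
    rw [DihedralGroup.r_mul_r, DihedralGroup.r_mul_r]
    have e : -j + i + j = i := by ring
    rw [e]
  | sr i =>
    rw [DihedralGroup.r_mul_sr, DihedralGroup.sr_mul_r, cw_sr, cw_sr]

theorem el_cw {w : Rˣ} (hw : w ^ 3 = 1) (t : R) (j : ZMod 3) :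
    el R (DihedralGroup.r j) * cw w t = (chi w (DihedralGroup.r j) : R) • cw w t := by
  ext s
  rw [el_mul_coeff, DihedralGroup.inv_r, MonoidAlgebra.coeff_smul, Finsupp.smul_apply, smul_eq_mul]
  cases s with
  | r i =>
    rw [DihedralGroup.r_mul_r, cw_r, cw_r]
    have h1 := chi_mul hw (-j) i
    rw [DihedralGroup.r_mul_r] at h1
    rw [h1, chi_inv hw, mul_inv, inv_inv]
    push_cast
    ring
  | sr i =>
    rw [DihedralGroup.r_mul_sr, cw_sr, cw_sr, mul_zero]

theorem cw_mul {w v : Rˣ} (hv : v ^ 3 = 1) (t : R) : cw w t * cw v t =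
    (t * ∑ i : ZMod 3, ((chi w (DihedralGroup.r i))⁻¹ : Rˣ) * (chi v (DihedralGroup.r i) : R)) •
      cw v t := by
  have h1 : cw w t * cw v t = ∑ i : ZMod 3, (t * ((chi w (DihedralGroup.r i))⁻¹ : Rˣ)) •
      (el R (DihedralGroup.r i) * cw v t) := by
    conv_lhs => rw [cw, Finset.sum_mul]
    exact Finset.sum_congr rfl fun i _ => smul_mul_assoc _ _ _
  rw [h1, Finset.mul_sum, Finset.sum_smul]
  refine Finset.sum_congr rfl fun i _ => ?_
  rw [el_cw hv, smul_smul, mul_assoc]

theorem sum3 (f : ZMod 3 → R) : ∑ i : ZMod 3, f i = f 0 + f 1 + f 2 := by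
  exact Fin.sum_univ_three f

theorem cw_idem {w : Rˣ} (hw : w ^ 3 = 1) {t : R} (ht : 3 * t = 1) :
    cw w t * cw w t = cw w t := by
  rw [cw_mul hw, sum3]
  simp only [Units.inv_mul]
  have : t * (1 + 1 + 1) = 1 := by linear_combination ht
  rw [this, one_smul]

theorem cw_orth {w : Rˣ} (hw : (1 : R) + w + (w : R) ^ 2 = 0) (t : R) :
    cw w t * cw w⁻¹ t = 0 := by
  have h3 := cube hw
  have hv : w⁻¹ ^ 3 = 1 := by rw [inv_pow, h3, inv_one]
  rw [cw_mul hv, sum3, chi_r, chi_r, chi_r, chi_r, chi_r, chi_r]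
  have e0 : (0 : ZMod 3).val = 0 := rfl
  have e1 : (1 : ZMod 3).val = 1 := rfl
  have e2 : (2 : ZMod 3).val = 2 := rfl
  rw [e0, e1, e2]
  have hi : w⁻¹ = w ^ 2 := by
    rw [inv_eq_iff_mul_eq_one, ← pow_succ', h3]
  have h4 : (w : R) ^ 3 = 1 := by
    have := congrArg (fun z : Rˣ => (z : R)) h3
    simpa using this
  have u1 : (w ^ 1)⁻¹ = w ^ 2 := by rw [pow_one, hi]
  have u2 : (w ^ 2)⁻¹ = w := by rw [← hi, inv_inv]
  have v1 : w⁻¹ ^ 1 = w ^ 2 := by rw [pow_one, hi]
  have v2 : w⁻¹ ^ 2 = w := by rw [inv_pow, u2]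
  have h5 : t * (((w ^ 0)⁻¹ : Rˣ) * ((w⁻¹ ^ 0 : Rˣ) : R) + ((w ^ 1)⁻¹ : Rˣ) * ((w⁻¹ ^ 1 : Rˣ) : R) +
      ((w ^ 2)⁻¹ : Rˣ) * ((w⁻¹ ^ 2 : Rˣ) : R)) = 0 := by
    rw [u1, u2, v1, v2, pow_zero, pow_zero, inv_one]
    push_cast
    linear_combination t * hw + t * (w : R) * h4
  rw [h5, zero_smul]

end chi

end Pool.Agent.Helper28.ST
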