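import Pool.Agent.Helper28.ST.S

/-!
# The product with the symmetric group of degree three: the reduction to nonreal blocks
-/

set_option autoImplicit false
set_option linter.unusedSectionVars false
open scoped BigOperators MonoidAlgebra
open Classical

namespace Pool.Agent.Helper28.ST

open Pool.Agent.Helper36.ST Pool.Agent.Helper36.NB Pool.Agent.Helper44.S3 Pool.Agent.Helper36.NC
open Pool.Agent.Helper44.ST (tw_coeff tw_block tw_orth toK_tw tw_simple tw_one)

theorem tens_ne {R : Type} [CommRing R] {G S : Type} [Group G] [Group S] {u : MonoidAlgebra R G}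
    {c : MonoidAlgebra R S} (h : tens u c = 0) (s : S) (hs : IsUnit (c.coeff s)) : u = 0 := by
  ext g
  have h1 := tens_coeff u c g s
  rw [h] at h1
  have h2 : u.coeff g * c.coeff s = 0 := h1.symm
  have h3 := hs.mul_left_eq_zero.1 h2
  rw [h3]
  rfl

theorem tens_nil {k : Type} [Field k] {G S : Type} [Group G] [Group S] {u : MonoidAlgebra k G}
    {c : MonoidAlgebra k S} (hc : c * c = c) (s : S) (hs : c.coeff s ≠ 0)
    (h : IsNilpotent (tens u c)) : IsNilpotent u := by
  obtain ⟨n, hn⟩ := h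
  have hpow : ∀ m : ℕ, tens u c ^ (m + 1) = tens (u ^ (m + 1)) c := by
    intro m
    induction m with
    | zero => rw [zero_add, pow_one, pow_one]
    | succ m ih => rw [pow_succ, ih, tens_mul, hc, ← pow_succ]
  refine ⟨n + 1, tens_ne (c := c) ?_ s (isUnit_iff_ne_zero.2 hs)⟩
  rw [← hpow, pow_succ, hn, zero_mul]

/-- The sum over the squares. -/
theorem sum_prod (O : ValuationSubring ℂ) {G : Type} [Group G] [Fintype G]
    (e : MonoidAlgebra O G) {w : Oˣ} (hw : (1 : O) + w + (w : O) ^ 2 = 0) {t : O}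
    (ht : 3 * t = 1) :
    ∑ g : G × DihedralGroup 3, (((tens e (eps w t)).coeff (g * g) : O) : ℂ) =
      2 * ∑ g : G, ((e.coeff (g * g) : O) : ℂ) := by
  have h1 : ∑ g : G × DihedralGroup 3, (tens e (eps w t)).coeff (g * g) =
      2 * ∑ g : G, e.coeff (g * g) := by
    rw [Fintype.sum_prod_type]
    have h2 : ∀ g : G, ∑ s : DihedralGroup 3, (tens e (eps w t)).coeff ((g, s) * (g, s)) =
        2 * e.coeff (g * g) := by
      intro g
      have h3 : ∀ s : DihedralGroup 3, (tens e (eps w t)).coeff ((g, s) * (g, s)) =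
          e.coeff (g * g) * (eps w t).coeff (s * s) := fun s =>
        tens_coeff e (eps w t) (g * g) (s * s)
      rw [Finset.sum_congr rfl fun s _ => h3 s, ← Finset.mul_sum, eps_sum hw ht, mul_comm]
    rw [Finset.sum_congr rfl fun g _ => h2 g, ← Finset.mul_sum]
  have h4 := congrArg (fun z : O => (z : ℂ)) h1
  push_cast at h4
  exact h4

/-- The defect class. -/
theorem class_prod (O : ValuationSubring ℂ) {G : Type} [Group G] [Fintype G]
    (e : MonoidAlgebra O G) {w : Oˣ} (hw : (1 : O) + w + (w : O) ^ 2 = 0) {t : O}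
    (ht : 3 * t = 1) {x : G} (hx : IsDefectClass O e x) :
    IsDefectClass O (tens e (eps w t)) ((x, DihedralGroup.r 1) : G × DihedralGroup 3) := by
  obtain ⟨h1, h2, h3⟩ := hx
  have htr : IsLocalRing.residue O (-t) ≠ 0 := by
    intro h
    have h5 := congrArg (IsLocalRing.residue O) ht
    rw [map_mul, map_one] at h5
    rw [map_neg, neg_eq_zero] at h
    rw [h, mul_zero] at h5
    exact zero_ne_one h5
  refine ⟨?_, ?_, ?_⟩
  · rw [Prod.orderOf_mk, DihedralGroup.orderOf_r_one]
    exact Odd.of_dvd_nat (h1.mul (by decide : Odd 3)) (Nat.lcm_dvd_mul _ _)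
  · rw [tens_coeff, eps_one hw, map_mul]
    exact mul_ne_zero h2 htr
  · intro hn
    apply h3
    rw [classSum_prod, tens_mul, el_eps hw] at hn
    have h4 : tens (classSum O x * e) (-eps w t) = -tens (classSum O x * e) (eps w t) := by
      have := tens_smul_right (-1 : O) (classSum O x * e) (eps w t)
      rwa [neg_one_smul, neg_one_smul] at this
    rw [h4, map_neg, isNilpotent_neg_iff, tens_toK] at hn
    refine tens_nil (c := toK O _ (eps w t)) (by rw [← map_mul, eps_idem hw ht])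
      (DihedralGroup.r 1) ?_ hn
    rw [toK_apply, eps_one hw]
    exact htr

theorem s3_trick'' (O : ValuationSubring ℂ) (h2 : (2 : O) ∈ IsLocalRing.maximalIdeal O) {G : Type}
    [Group G] [Fintype G] (e : MonoidAlgebra O G) (he : IsBlock e) (her : inv' e = e)
    (S : SimpleQuot (toK O G e)) :
    ∃ e' : MonoidAlgebra O (G × DihedralGroup 3), IsBlock e' ∧ inv' e' = e' ∧
      (∃ S' : SimpleQuot (toK O _ e'), S'.n = 2 * S.n) ∧
      (Tot O e' (2 * S.n) → Tot O e S.n) ∧
      (∀ (H : Subgroup G) (b : MonoidAlgebra O H), H.Normal → e * incl O H b ≠ 0 →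
        ∃ W : Tw O (H.prod C3 : Subgroup (G × DihedralGroup 3)) H,
          (∀ x, W.π x = ⟨x.1.1, (Subgroup.mem_prod.1 x.2).1⟩) ∧
          e' * incl O _ (tw W b) ≠ 0 ∧
          (∀ g : G × DihedralGroup 3,
            cj g (incl O (H.prod C3) (tw W b)) = incl O (H.prod C3) (tw W b) →
              g.2 ∈ C3 ∧ cj g.1 (incl O H b) = incl O H b) ∧
          (∀ x : (H.prod C3 : Subgroup (G × DihedralGroup 3)), x.1.2 = 1 → W.lam x = 1)) := by
  obtain ⟨w, hw⟩ := exists_omega O
  obtain ⟨t, ht⟩ := exists_third O h2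
  obtain ⟨he0, hee, hec, -⟩ := id he
  have hw3 := cube hw
  obtain ⟨W0, hW0⟩ : ∃ W0, W0 = mkTw (⊤ : Subgroup G) Subgroup.topEquiv w hw t ht := ⟨_, rfl⟩
  obtain ⟨F, hF⟩ : ∃ F, F = incl O ((⊤ : Subgroup G).prod C3) (tw W0 e) := ⟨_, rfl⟩
  have hF1 : F = tens e (cw w t) := by
    rw [hF, hW0]
    exact incl_tw ⊤ Subgroup.topEquiv w hw t ht e e (fun h => rfl)
      (fun g hg => absurd (Subgroup.mem_top g) hg)
  have hF2 : inv' (tens e (cw w t)) = tens e (cw w⁻¹ t) := by rw [tens_inv, her, inv_cw hw3]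
  have hE : F + inv' F = tens e (eps w t) := by
    rw [hF1, hF2]
    unfold eps
    rw [tens_add_right]
  have hidx : ((⊤ : Subgroup G).prod C3).index = 2 := by
    rw [Subgroup.index_prod, Subgroup.index_top, one_mul]
    have hC : Nat.card C3 = 3 := by
      unfold C3
      rw [Nat.card_zpowers, DihedralGroup.orderOf_r_one]
    have h1 := Subgroup.card_mul_index C3
    rw [hC, DihedralGroup.nat_card] at h1
    omega
  have hb : IsBlock (tw W0 e) := tw_block W0 he
  have hFF : F * inv' F = 0 := by rw [hF1, hF2, tens_mul, cw_orth hw, tens_zero_right]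
  have hc : ∀ g, g ∉ (⊤ : Subgroup G).prod C3 → cj g F = inv' F := by
    rintro ⟨g, s⟩ hg
    cases s with
    | r i => exact absurd (Subgroup.mem_prod.2 ⟨Subgroup.mem_top g, r_mem i⟩) hg
    | sr i =>
      rw [hF1, hF2, tens_cj, cj_cw hw3, cj_of_central hec]
  have hone : OneSimple (toK O _ (tw W0 e)) := by
    rw [toK_tw]
    exact tw_one _ (oneSimple_of S)
  obtain ⟨Sb, hSb⟩ : ∃ Sb : SimpleQuot (toK O _ (tw W0 e)), Sb.n = S.n := by
    rw [toK_tw]
    exact tw_simple W0.red S
  have hex : ∃ g, g ∉ (⊤ : Subgroup G).prod C3 :=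
    ⟨(1, DihedralGroup.sr 0), fun h => sr_notMem 0 (Subgroup.mem_prod.1 h).2⟩
  rw [hF] at hFF hc
  obtain ⟨SK⟩ := simple_two' O hidx (tw W0 e) hb hFF hc hone
  have hSK := two_n O h2 hidx (tw W0 e) hb Sb hFF hc SK
  have hbl := isBlock_two (tw W0 e) hb hFF hc hex
  rw [← hF] at hbl
  have hSK' : ∃ S' : SimpleQuot (toK O (G × DihedralGroup 3) (F + inv' F)), S'.n = 2 * S.n := by
    rw [hF]
    exact ⟨SK, by rw [hSK, hSb]⟩
  refine ⟨F + inv' F, hbl, by rw [inv'_add, inv'_inv', add_comm], hSK', ?_, ?_⟩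
  · intro hT x D E hx hDE hne
    rw [hE] at hT
    have hne' : D.prod (⊥ : Subgroup (DihedralGroup 3)) ≠ pairE hDE := by
      intro h
      obtain ⟨y, hy, hy'⟩ := exists_t hDE hne
      have h1 : (y, DihedralGroup.sr 0) ∈ pairE hDE := (mem_pairE hDE _ _).2 ⟨hy, Or.inr ⟨hy', rfl⟩⟩
      rw [← h] at h1
      exact hy' (Subgroup.mem_prod.1 h1).1
    have key := hT _ _ _ (class_prod O e hw ht hx) (pair_prod hx.1 hDE hne) hne'
    rw [sum_prod O e hw ht] at key
    have hcount : Nat.card {y : G × DihedralGroup 3 // y ∈ pairE hDE ∧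
        y ∉ D.prod (⊥ : Subgroup (DihedralGroup 3)) ∧ y * y = 1} =
        Nat.card {y : G // y ∈ E ∧ y ∉ D ∧ y * y = 1} := by
      have e : {y : G × DihedralGroup 3 // y ∈ pairE hDE ∧
          y ∉ D.prod (⊥ : Subgroup (DihedralGroup 3)) ∧ y * y = 1} ≃
          {y : G // y ∈ E ∧ y ∉ D ∧ y * y = 1} :=
        { toFun := fun z => ⟨z.1.1, z.2.1.1, fun hD => by
            obtain ⟨⟨a, s⟩, h1, h2, h3⟩ := z
            obtain ⟨h4, h5⟩ := (mem_pairE hDE a s).1 h1
            rcases h5 with ⟨h6, h7⟩ | ⟨h6, h7⟩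
            · exact h2 (Subgroup.mem_prod.2 ⟨h6, Subgroup.mem_bot.2 h7⟩)
            · exact h6 hD, congrArg Prod.fst z.2.2.2⟩
          invFun := fun y => ⟨(y.1, DihedralGroup.sr 0),
            (mem_pairE hDE _ _).2 ⟨y.2.1, Or.inr ⟨y.2.2.1, rfl⟩⟩,
            fun h => y.2.2.1 (Subgroup.mem_prod.1 h).1,
            Prod.ext y.2.2.2 (DihedralGroup.sr_mul_self 0)⟩
          left_inv := by
            rintro ⟨⟨a, s⟩, h1, h2, h3⟩
            apply Subtype.ext
            apply Prod.ext
            · rfl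
            · obtain ⟨h4, h5⟩ := (mem_pairE hDE a s).1 h1
              rcases h5 with ⟨h6, h7⟩ | ⟨h6, h7⟩
              · exact absurd (Subgroup.mem_prod.2 ⟨h6, Subgroup.mem_bot.2 h7⟩) h2
              · exact h7.symm
          right_inv := fun y => rfl }
      exact Nat.card_congr e
    rw [hcount] at key
    push_cast at key
    have h5 : (2 : ℂ) * ∑ g : G, ((e.coeff (g * g) : O) : ℂ) =
        2 * (S.n * (Nat.card {y : G // y ∈ E ∧ y ∉ D ∧ y * y = 1} : ℂ)) := by
      rw [key]
      ring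
    exact mul_left_cancel₀ two_ne_zero h5
  · intro H b hH hne
    have hU : incl O (H.prod C3 : Subgroup (G × DihedralGroup 3))
        (tw (mkTw H (MulEquiv.refl H) w hw t ht) b) = tens (incl O H b) (cw w t) :=
      incl_tw H (MulEquiv.refl H) w hw t ht b (incl O H b) (fun h => incl_coeff H b h)
        (fun g hg => incl_supp H b hg)
    have hunit : IsUnit ((cw w t).coeff (DihedralGroup.r 0)) := by
      have e0 : (0 : ZMod 3).val = 0 := rfl
      rw [cw_r, chi_r, e0, pow_zero, inv_one, Units.val_one, mul_one]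
      exact IsUnit.of_mul_eq_one 3 (by rw [mul_comm, ht])
    refine ⟨mkTw H (MulEquiv.refl H) w hw t ht, fun _ => rfl, fun h0 => hne ?_, ?_, fun x hx => by
      change chi w x.1.2 = 1
      rw [hx, chi_one]⟩
    · rw [hU, hE, tens_mul, eps_cw hw ht] at h0
      exact tens_ne h0 (DihedralGroup.r 0) hunit
    · rintro ⟨g, s⟩ hg
      rw [hU, tens_cj] at hg
      cases s with
      | r i =>
        refine ⟨r_mem i, ?_⟩
        rw [cj_cw_r] at hg
        have h1 : tens (cj g (incl O H b) - incl O H b) (cw w t) = 0 := by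
          have h2 : cj g (incl O H b) =
              (cj g (incl O H b) - incl O H b) + incl O H b := by abel
          have h3 := tens_add_left (cj g (incl O H b) - incl O H b) (incl O H b) (cw w t)
          rw [← h2, hg] at h3
          exact (right_eq_add.1 h3)
        have h4 := tens_ne h1 (DihedralGroup.r 0) hunit
        exact sub_eq_zero.1 h4
      | sr i =>
        exfalso
        rw [cj_cw hw3] at hg
        have h1 := congrArg (fun y => y * tens (1 : MonoidAlgebra O G) (cw w t)) hg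
        simp only [tens_mul, mul_one] at h1
        rw [cw_orth' hw, cw_idem hw3 ht, tens_zero_right] at h1
        have h4 := tens_ne h1.symm (DihedralGroup.r 0) hunit
        exact hne (by rw [h4, mul_zero])

theorem s3_trick' (O : ValuationSubring ℂ) (h2 : (2 : O) ∈ IsLocalRing.maximalIdeal O) {G : Type}
    [Group G] [Fintype G] (e : MonoidAlgebra O G) (he : IsBlock e) (her : inv' e = e)
    (S : SimpleQuot (toK O G e)) :
    ∃ e' : MonoidAlgebra O (G × DihedralGroup 3), IsBlock e' ∧ inv' e' = e' ∧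
      (∃ S' : SimpleQuot (toK O _ e'), S'.n = 2 * S.n) ∧
      (Tot O e' (2 * S.n) → Tot O e S.n) ∧
      (∀ (H : Subgroup G) (b : MonoidAlgebra O H), H.Normal → e * incl O H b ≠ 0 →
        ∃ W : Tw O (H.prod C3 : Subgroup (G × DihedralGroup 3)) H,
          (∀ x, W.π x = ⟨x.1.1, (Subgroup.mem_prod.1 x.2).1⟩) ∧
          e' * incl O _ (tw W b) ≠ 0 ∧
          (∀ g : G × DihedralGroup 3,
            cj g (incl O (H.prod C3) (tw W b)) = incl O (H.prod C3) (tw W b) →
              g.2 ∈ C3 ∧ cj g.1 (incl O H b) = incl O H b)) := by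
  obtain ⟨e', h1, h3, h4, h5, h6⟩ := s3_trick'' O h2 e he her S
  refine ⟨e', h1, h3, h4, h5, fun H b hH hne => ?_⟩
  obtain ⟨W, h7, h8, h9, -⟩ := h6 H b hH hne
  exact ⟨W, h7, h8, h9⟩

theorem s3_trick (O : ValuationSubring ℂ) (h2 : (2 : O) ∈ IsLocalRing.maximalIdeal O) {G : Type}
    [Group G] [Fintype G] (e : MonoidAlgebra O G) (he : IsBlock e) (her : inv' e = e)
    (S : SimpleQuot (toK O G e)) :
    ∃ e' : MonoidAlgebra O (G × DihedralGroup 3), IsBlock e' ∧ inv' e' = e' ∧
      (∃ S' : SimpleQuot (toK O _ e'), S'.n = 2 * S.n) ∧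
      (Tot O e' (2 * S.n) → Tot O e S.n) ∧
      (∀ (H : Subgroup G) (b : MonoidAlgebra O H), H.Normal → e * incl O H b ≠ 0 →
        ∃ W : Tw O (H.prod C3 : Subgroup (G × DihedralGroup 3)) H,
          (∀ x, W.π x = ⟨x.1.1, (Subgroup.mem_prod.1 x.2).1⟩) ∧
          e' * incl O _ (tw W b) ≠ 0) := by
  obtain ⟨e', h1, h3, h4, h5, h6⟩ := s3_trick' O h2 e he her S
  refine ⟨e', h1, h3, h4, h5, fun H b hH hne => ?_⟩
  obtain ⟨W, h7, h8, -⟩ := h6 H b hH hne
  exact ⟨W, h7, h8⟩

end Pool.Agent.Helper28.ST
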